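import Pool.Agent.KS6_25.CP.P1

/-!
# Chen's theorem inside sifted sets: the lower bound when only few classes are removed at the large primes
-/

set_option autoImplicit false

namespace Pool.Agent.KS6_25.CP

open Finset Filter Pool.Agent.W23.DC Pool.Agent.Y660.RP Pool.Agent.Y843.CH
open Pool.Agent.KS6_51.CH

/-- products over primes in `(a, b]` -/
theorem prodr (κ : ℕ) (hκ : 1 ≤ κ) : ∃ c : ℝ, 0 < c ∧ ∀ a b : ℕ, 2 * κ + 2 ≤ a → a ≤ b → ∀ S : Finset ℕ,
    (∀ p ∈ S, p.Prime ∧ a < p ∧ p ≤ b) → ∀ g : ℕ → ℝ, (∀ p ∈ S, 0 ≤ g p ∧ g p ≤ κ / ((p : ℝ) - 1)) →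
    c * (Real.log a / Real.log b) ^ κ ≤ ∏ p ∈ S, (1 - g p) := by
  obtain ⟨C, hC0, hC⟩ := Pool.Agent.Helper923.HMertens.mertens_ratio
  have hl2 : 0 < Real.log 2 := Real.log_pos (by norm_num)
  refine ⟨Real.exp (-(κ * (C / Real.log 2) + 6 * κ ^ 2)), by positivity, ?_⟩
  intro a b ha hab S hS g hg
  have hκr : (1 : ℝ) ≤ κ := by exact_mod_cast hκ
  have hla : 0 < Real.log a := Real.log_pos (by exact_mod_cast (by omega : 1 < a))
  have hlb : 0 < Real.log b := Real.log_pos (by exact_mod_cast (by omega : 1 < b))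
  have hl2a : Real.log 2 ≤ Real.log a := Real.log_le_log (by norm_num) (by exact_mod_cast (by omega : 2 ≤ a))
  -- one factor
  have h1 : ∀ p ∈ S, Real.exp (-(κ * (1 / (p : ℝ)) + 3 * κ ^ 2 * (1 / ((p : ℝ) - 1) ^ 2))) ≤
      1 - g p := by
    intro p hp
    obtain ⟨hpp, hpa, -⟩ := hS p hp
    obtain ⟨g0, g1⟩ := hg p hp
    have hpz : ((2 * κ + 3 : ℕ) : ℝ) ≤ p := by exact_mod_cast (by omega : 2 * κ + 3 ≤ p)
    push_cast at hpz
    have hp1 : (0 : ℝ) < (p : ℝ) - 1 := by linarith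
    have hp0 : (0 : ℝ) < p := by linarith
    have hhalf : g p ≤ 1 / 2 := by
      refine g1.trans ?_
      rw [div_le_div_iff₀ hp1 (by norm_num)]
      linarith
    refine le_trans ?_ (one_sub_ge g0 hhalf)
    apply Real.exp_le_exp.2
    have hsq : g p ^ 2 ≤ κ ^ 2 * (1 / ((p : ℝ) - 1) ^ 2) := by
      have := pow_le_pow_left₀ g0 g1 2
      rw [div_pow] at this
      calc g p ^ 2 ≤ (κ : ℝ) ^ 2 / ((p : ℝ) - 1) ^ 2 := this
        _ = _ := by ring
    have hlin : κ / ((p : ℝ) - 1) ≤ κ * (1 / (p : ℝ)) + κ ^ 2 * (1 / ((p : ℝ) - 1) ^ 2) := by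
      have e : κ / ((p : ℝ) - 1) = κ * (1 / (p : ℝ)) + κ * (1 / (p * ((p : ℝ) - 1))) := by
        field_simp
        ring
      rw [e]
      have h2 : 1 / ((p : ℝ) * ((p : ℝ) - 1)) ≤ 1 / ((p : ℝ) - 1) ^ 2 := by
        apply one_div_le_one_div_of_le (by positivity)
        nlinarith
      have h3 : (κ : ℝ) * (1 / (p * ((p : ℝ) - 1))) ≤ κ ^ 2 * (1 / ((p : ℝ) - 1) ^ 2) := by
        apply mul_le_mul _ h2 (by positivity) (by positivity)
        nlinarith
      linarith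
    linarith
  have h2 : Real.exp (-(∑ p ∈ S, (κ * (1 / (p : ℝ)) + 3 * κ ^ 2 * (1 / ((p : ℝ) - 1) ^ 2)))) ≤
      ∏ p ∈ S, (1 - g p) := by
    rw [← sum_neg_distrib, Real.exp_sum]
    exact prod_le_prod (fun _ _ => (Real.exp_pos _).le) h1
  refine le_trans ?_ h2
  have hsub : S ⊆ (Ioc a b).filter Nat.Prime := by
    intro p hp
    obtain ⟨h1, h2, h3⟩ := hS p hp
    rw [mem_filter, mem_Ioc]
    exact ⟨⟨h2, h3⟩, h1⟩
  have hs1 : ∑ p ∈ S, 1 / (p : ℝ) ≤ Real.log (Real.log b / Real.log a) + C / Real.log 2 := by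
    have h3 := hC a b (by omega) hab
    rw [abs_le] at h3
    have h4 := sum_le_sum_of_subset_of_nonneg (f := fun p : ℕ => 1 / (p : ℝ)) hsub
      (fun _ _ _ => by positivity)
    have h5 : C / Real.log a ≤ C / Real.log 2 := div_le_div_of_nonneg_left hC0 hl2 hl2a
    linarith [h3.2]
  have hs2 : ∑ p ∈ S, 1 / ((p : ℝ) - 1) ^ 2 ≤ 2 := by
    refine le_trans ?_ (sum_sq_le a b (by omega))
    exact sum_le_sum_of_subset_of_nonneg hsub (fun _ _ _ => by positivity)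
  have hsum : ∑ p ∈ S, (κ * (1 / (p : ℝ)) + 3 * κ ^ 2 * (1 / ((p : ℝ) - 1) ^ 2)) ≤
      κ * (Real.log (Real.log b / Real.log a) + C / Real.log 2) + 3 * κ ^ 2 * 2 := by
    rw [sum_add_distrib, ← mul_sum, ← mul_sum]
    exact add_le_add (mul_le_mul_of_nonneg_left hs1 (by positivity))
      (mul_le_mul_of_nonneg_left hs2 (by positivity))
  refine le_trans (le_of_eq ?_) (Real.exp_le_exp.2 (neg_le_neg hsum))
  have e1 : -(κ * (Real.log (Real.log b / Real.log a) + C / Real.log 2) + 3 * κ ^ 2 * 2) =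
      κ * Real.log (Real.log a / Real.log b) + -(κ * (C / Real.log 2) + 6 * κ ^ 2) := by
    rw [Real.log_div hlb.ne' hla.ne', Real.log_div hla.ne' hlb.ne']
    ring
  rw [e1, Real.exp_add, Real.exp_nat_mul, Real.exp_log (by positivity)]
  ring

/-- Chen's theorem in sifted sets: at most `K + k` classes are removed for `z < p ≤ y` and at most `K` for `p > y` -/
theorem chen_low (K k i j : ℕ) (hij : i ≠ j) : ∃ z₀ : ℕ, ∀ z : ℕ, z₀ ≤ z → ∃ (δ c : ℝ) (X₀ : ℕ),
    0 < δ ∧ 0 < c ∧ ∀ X : ℕ, X₀ ≤ X → ∀ y : ℕ, z ≤ y → y ^ 2 ≤ X → ∀ E : ℕ → Finset ℕ,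
    (∀ p : ℕ, p.Prime → z < p → (E p).card ≤ K + k) →
    (∀ p : ℕ, p.Prime → y < p → (E p).card ≤ K) →
    (∀ p : ℕ, p.Prime → p ≤ z → ∃ a : ℕ, a % p ∉ E p ∧ ¬ p ∣ a + i ∧ ¬ p ∣ a + j) →
    c * (X / (Real.log y ^ k * Real.log X ^ (K + 2))) ≤ ((Good X i j δ E).card : ℝ) := by
  classical
  obtain ⟨z₀, hz₀⟩ := chenNP (K + k) i j hij
  obtain ⟨c₁, hc₁, hp1⟩ := prodr (K + k + 1) (by omega)
  obtain ⟨c₂, hc₂, hp2⟩ := prodr (K + 1) (by omega)
  refine ⟨z₀ + 2 * (K + k + 1) + 2, fun z hz => ?_⟩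
  obtain ⟨ε, c, N₀, hε0, hε8, hc, h⟩ := hz₀ z (by omega)
  have hz2 : 2 ≤ z := by omega
  have hlz : 0 < Real.log z := Real.log_pos (by exact_mod_cast (by omega : 1 < z))
  refine ⟨ε / 3, c * (c₁ * c₂ * Real.log z ^ (K + k + 1)), (max N₀ 16) ^ 2, by positivity, by positivity, ?_⟩
  intro X hX y hzy hyX E hE hE2 hA
  obtain ⟨N, hN⟩ : ∃ N : ℕ, N = Nat.sqrt X := ⟨_, rfl⟩
  have hN0 : max N₀ 16 ≤ N := by rw [hN]; exact Nat.le_sqrt'.2 hX
  rw [max_le_iff] at hN0
  obtain ⟨h0, h5⟩ := hN0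
  have hyN : y ≤ N := by rw [hN]; exact Nat.le_sqrt'.2 hyX
  have hNX : N ^ 2 ≤ X := by rw [hN]; exact Nat.sqrt_le' X
  have hXN : X ≤ N ^ 2 + 2 * N := by
    have := Nat.lt_succ_sqrt' X
    rw [← hN] at this
    have e : (Nat.succ N) ^ 2 = N ^ 2 + 2 * N + 1 := by rw [Nat.succ_eq_add_one]; ring
    omega
  have hNr : (16 : ℝ) ≤ N := by exact_mod_cast h5
  have hN1 : 1 ≤ N := by omega
  have h5N : 5 * N ≤ N ^ 2 := by nlinarith
  -- the class modulo the small primes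
  choose! f hf using hA
  obtain ⟨a₀, ha₀⟩ := exists_crt z f
  have hcop : ∀ s : ℕ, (∀ p : ℕ, p.Prime → p ≤ z → ¬ p ∣ f p + s) →
      (a₀ + s).Coprime (primorial z) := by
    intro s hs
    rw [Nat.coprime_iff_gcd_eq_one]
    by_contra hne
    obtain ⟨p, hp, hpd⟩ := Nat.exists_prime_and_dvd hne
    have h2 : p ≤ z := le_of_dvd_primorial hp (hpd.trans (Nat.gcd_dvd_right _ _))
    have h3 : p ∣ a₀ + s := hpd.trans (Nat.gcd_dvd_left _ _)
    exact hs p hp h2 ((((ha₀ p hp h2).add_right s).dvd_iff dvd_rfl).1 h3)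
  have key := h N h0 X hNX hXN E a₀ hE
    (hcop i fun p hp hpz => (hf p hp hpz).2.1) (hcop j fun p hp hpz => (hf p hp hpz).2.2)
  have hL : 0 < Real.log N := Real.log_pos (by linarith)
  have hLX : Real.log N ≤ Real.log X := by
    apply Real.log_le_log (by linarith)
    have : N ≤ N ^ 2 := Nat.le_self_pow (by norm_num) N
    exact_mod_cast this.trans hNX
  have hlX : 0 < Real.log X := by linarith
  have hly : 0 < Real.log y := Real.log_pos (by exact_mod_cast (by omega : 1 < y))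
  -- the factors
  have hfac : ∀ p ∈ P1 N z ε, ∀ κ : ℕ, (E p).card ≤ κ → 0 ≤ gg ((N : ℝ) ^ ε) i j E p ∧
      gg ((N : ℝ) ^ ε) i j E p ≤ ((κ + 1 : ℕ) : ℝ) / ((p : ℝ) - 1) := by
    intro p hp κ hκ
    rw [mem_P1] at hp
    have hp1 : (0 : ℝ) < (p : ℝ) - 1 := by
      have : (1 : ℝ) < p := by exact_mod_cast hp.2.1.one_lt
      linarith
    have e1 := card_Fb_le (w := (N : ℝ) ^ ε) (i := i) (j := j) hp.2.1.pos hκ
    have e2 := card_cl (w := (N : ℝ) ^ ε) (i := i) (j := j) (E := E) hp.2.1 (Or.inl rfl : i = i ∨ i = j)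
    have e3 : 1 ≤ (Fb ((N : ℝ) ^ ε) i j E p).card := by omega
    have e1' : ((Fb ((N : ℝ) ^ ε) i j E p).card : ℝ) ≤ (κ : ℝ) + 2 := by exact_mod_cast e1
    have e3' : (1 : ℝ) ≤ (Fb ((N : ℝ) ^ ε) i j E p).card := by exact_mod_cast e3
    unfold gg
    constructor
    · exact div_nonneg (by linarith) hp1.le
    · apply div_le_div_of_nonneg_right _ hp1.le
      push_cast
      linarith
  -- the product
  have hsplit : ∏ p ∈ P1 N z ε, (1 - gg ((N : ℝ) ^ ε) i j E p) =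
      (∏ p ∈ (P1 N z ε).filter (fun p => p ≤ y), (1 - gg ((N : ℝ) ^ ε) i j E p)) *
      ∏ p ∈ (P1 N z ε).filter (fun p => ¬ p ≤ y), (1 - gg ((N : ℝ) ^ ε) i j E p) :=
    (prod_filter_mul_prod_filter_not _ _ _).symm
  have q1 := hp1 z y (by omega) hzy ((P1 N z ε).filter (fun p => p ≤ y)) (by
      intro p hp
      rw [mem_filter, mem_P1] at hp
      exact ⟨hp.1.2.1, hp.1.1.1, hp.2⟩) (gg ((N : ℝ) ^ ε) i j E) (by
      intro p hp
      rw [mem_filter] at hp
      exact hfac p hp.1 (K + k) (hE p (mem_P1.1 hp.1).2.1 (mem_P1.1 hp.1).1.1))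
  have q2 := hp2 y N (by omega) hyN ((P1 N z ε).filter (fun p => ¬ p ≤ y)) (by
      intro p hp
      rw [mem_filter, mem_P1] at hp
      exact ⟨hp.1.2.1, by omega, hp.1.1.2⟩) (gg ((N : ℝ) ^ ε) i j E) (by
      intro p hp
      rw [mem_filter] at hp
      exact hfac p hp.1 K (hE2 p (mem_P1.1 hp.1).2.1 (by omega)))
  have q3 : c₁ * c₂ * Real.log z ^ (K + k + 1) / (Real.log y ^ k * Real.log N ^ (K + 1)) ≤
      ∏ p ∈ P1 N z ε, (1 - gg ((N : ℝ) ^ ε) i j E p) := by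
    rw [hsplit]
    refine le_trans (le_of_eq ?_) (mul_le_mul q1 q2 (by positivity) (le_trans (by positivity) q1))
    rw [div_pow, div_pow, show K + k + 1 = (K + 1) + k by ring, pow_add (Real.log y) (K + 1) k]
    field_simp
  have hle : c * (c₁ * c₂ * Real.log z ^ (K + k + 1)) * (X / (Real.log y ^ k * Real.log X ^ (K + 2))) ≤
      c * (X / Real.log N * ∏ p ∈ P1 N z ε, (1 - gg ((N : ℝ) ^ ε) i j E p)) := by
    have e1 : c * (c₁ * c₂ * Real.log z ^ (K + k + 1)) * (X / (Real.log y ^ k * Real.log X ^ (K + 2))) ≤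
        c * (c₁ * c₂ * Real.log z ^ (K + k + 1)) * (X / (Real.log y ^ k * Real.log N ^ (K + 2))) := by
      apply mul_le_mul_of_nonneg_left _ (by positivity)
      apply div_le_div_of_nonneg_left (by positivity) (by positivity)
      apply mul_le_mul_of_nonneg_left _ (by positivity)
      exact pow_le_pow_left₀ hL.le hLX _
    refine e1.trans ?_
    have e2 : c * (c₁ * c₂ * Real.log z ^ (K + k + 1)) * (X / (Real.log y ^ k * Real.log N ^ (K + 2))) =
        c * (X / Real.log N * (c₁ * c₂ * Real.log z ^ (K + k + 1) / (Real.log y ^ k * Real.log N ^ (K + 1)))) := by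
      rw [show K + 2 = (K + 1) + 1 by ring, pow_succ (Real.log N) (K + 1)]
      field_simp
    rw [e2]
    apply mul_le_mul_of_nonneg_left _ hc.le
    exact mul_le_mul_of_nonneg_left q3 (by positivity)
  refine hle.trans (key.trans ?_)
  have hsub : GG X N z i j (primorial z) a₀ ε E ⊆ Good X i j (ε / 3) E := by
    intro n hn
    unfold GG at hn
    rw [mem_filter, mem_Om1] at hn
    obtain ⟨⟨hnX, hpr⟩, hmod, hP, hpf, hlen⟩ := hn
    unfold Good
    rw [mem_filter, mem_Ioc]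
    refine ⟨hnX, hpr, hlen, ?_, ?_⟩
    · intro p hp hd
      refine le_trans ?_ (hpf p hp hd)
      have h16 : (2 : ℝ) ≤ (N : ℝ) ^ (1 / 4 : ℝ) := by
        have e : (2 : ℝ) = ((16 : ℝ)) ^ (1 / 4 : ℝ) := by
          rw [show (16 : ℝ) = 2 ^ (4 : ℝ) by norm_num, ← Real.rpow_mul (by norm_num)]
          norm_num
        rw [e]
        exact Real.rpow_le_rpow (by norm_num) (by exact_mod_cast h5) (by norm_num)
      have h3 : (X : ℝ) ≤ (N : ℝ) ^ (9 / 4 : ℝ) := by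
        have h2 : (X : ℝ) ≤ 2 * (N : ℝ) ^ 2 := by
          have : X ≤ 2 * N ^ 2 := by omega
          exact_mod_cast this
        have e : (N : ℝ) ^ (9 / 4 : ℝ) = (N : ℝ) ^ (1 / 4 : ℝ) * (N : ℝ) ^ 2 := by
          rw [← Real.rpow_natCast, ← Real.rpow_add (by linarith)]
          norm_num
        rw [e]
        refine h2.trans ?_
        exact mul_le_mul_of_nonneg_right h16 (by positivity)
      calc (X : ℝ) ^ (1 / 9 : ℝ) ≤ ((N : ℝ) ^ (9 / 4 : ℝ)) ^ (1 / 9 : ℝ) :=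
            Real.rpow_le_rpow (by positivity) h3 (by norm_num)
        _ = (N : ℝ) ^ (1 / 4 : ℝ) := by
            rw [← Real.rpow_mul (by linarith)]
            norm_num
    · intro p hp hpX
      rcases le_or_gt p z with hpz | hpz
      · have h2 : n ≡ f p [MOD p] := (hmod.of_dvd (dvd_primorial hp hpz)).trans (ha₀ p hp hpz)
        have h3 : n % p = f p % p := h2
        rw [h3]
        exact (hf p hp hpz).1
      · apply hP
        rw [mem_P1_iff hN1 (by linarith) hp hpz]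
        refine hpX.trans_le ?_
        have h2 : (X : ℝ) ≤ (N : ℝ) ^ (3 : ℕ) := by
          have : X ≤ N ^ 3 := by nlinarith
          exact_mod_cast this
        calc (X : ℝ) ^ (ε / 3) ≤ ((N : ℝ) ^ (3 : ℕ)) ^ (ε / 3) :=
              Real.rpow_le_rpow (by positivity) h2 (by positivity)
          _ = (N : ℝ) ^ ε := by
              rw [← Real.rpow_natCast, ← Real.rpow_mul (by linarith)]
              congr 1
              push_cast
              ring
  exact_mod_cast card_le_card hsub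

end Pool.Agent.KS6_25.CP
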