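import Pool.Agent.KS6_25.CP.P2
import Pool.Agent.KS6_25.SH.G7
import Pool.Graph.R_seed8.W93.HD4

/-!
# Chen's theorem in sifted sets: a lower bound for the sieve model, and from weights to primes
-/

set_option autoImplicit false

namespace Pool.Agent.KS6_25.CP

open Finset Filter
open Pool.Agent.H373R2.T7 (pz Vz Vz_pos mem_pz)
open Pool.Agent.TH935.TF
open Pool.Agent.KS6_51.CH (Good)

/-- no fixed prime divisor: `x + i`, `x + j`, `x + h` (`h ∈ S`) and `α l x + β l` -/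
def Ok (i j : ℕ) (S : Finset ℕ) {k : ℕ} (α β : Fin k → ℤ) : Prop :=
  ∀ p : ℕ, p.Prime → ∃ r : ℤ, ¬ (p : ℤ) ∣ r + i ∧ ¬ (p : ℤ) ∣ r + j ∧ (∀ h ∈ S, ¬ (p : ℤ) ∣ r + h) ∧
    ∀ l, ¬ (p : ℤ) ∣ α l * r + β l

open Classical in
/-- the `n` in `(X, 2 X]` with `n + i` prime, `n + j` a `P₂`, all prime factors of `n + h` at least `X ^ δ` -/
noncomputable def Bs (i j : ℕ) (S : Finset ℕ) (δ : ℝ) (X : ℕ) : Finset ℕ :=
  (Ioc X (2 * X)).filter (fun n => (n + i).Prime ∧ (n + j).primeFactorsList.length ≤ 2 ∧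
    (∀ p : ℕ, p.Prime → p ∣ n + j → (X : ℝ) ^ (1 / 9 : ℝ) ≤ p) ∧
    ∀ h ∈ S, ∀ p : ℕ, p.Prime → p ∣ n + h → (X : ℝ) ^ δ ≤ p)

open Classical in
/-- the classes -/
noncomputable def EE (S : Finset ℕ) {k : ℕ} (α β : Fin k → ℤ) (y p : ℕ) : Finset ℕ :=
  (range p).filter (fun c => (∃ h ∈ S, p ∣ c + h) ∨ (p ≤ y ∧ ∃ l, (p : ℤ) ∣ α l * (c : ℤ) + β l))

theorem card_S (S : Finset ℕ) (p : ℕ) (hp : 0 < p) : ((range p).filter (fun c => ∃ h ∈ S, p ∣ c + h)).card ≤ S.card := by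
  classical
  have h1 : (range p).filter (fun c => ∃ h ∈ S, p ∣ c + h) ⊆ S.biUnion (fun h => (range p).filter (fun c => p ∣ c + h)) := by
    intro c hc
    rw [mem_filter] at hc
    obtain ⟨hc, h, hh, hd⟩ := hc
    rw [mem_biUnion]
    exact ⟨h, hh, mem_filter.2 ⟨hc, hd⟩⟩
  refine (card_le_card h1).trans (card_biUnion_le.trans ?_)
  calc ∑ h ∈ S, ((range p).filter (fun c => p ∣ c + h)).card ≤ ∑ _h ∈ S, 1 :=
        sum_le_sum fun h _ => Pool.Agent.KS6_51.CH.card_dvd_le hp h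
    _ = S.card := by rw [sum_const, smul_eq_mul, mul_one]

theorem card_EE1 {S : Finset ℕ} {k : ℕ} {α β : Fin k → ℤ} (hadm : Adm α β) (y p : ℕ) (hp : p.Prime) :
    (EE S α β y p).card ≤ S.card + k := by
  classical
  have h1 : EE S α β y p ⊆ (range p).filter (fun c => ∃ h ∈ S, p ∣ c + h) ∪
      (range p).filter (fun r : ℕ => ∃ i, (p : ℤ) ∣ α i * (r : ℤ) + β i) := by
    intro c hc
    unfold EE at hc
    rw [mem_filter] at hc
    rw [mem_union, mem_filter, mem_filter]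
    rcases hc.2 with h | h
    · exact Or.inl ⟨hc.1, h⟩
    · exact Or.inr ⟨hc.1, h.2⟩
  refine (card_le_card h1).trans ((card_union_le _ _).trans ?_)
  have h2 := card_S S p hp.pos
  have h3 := om_le hadm p hp
  unfold om at h3
  omega

theorem card_EE2 {S : Finset ℕ} {k : ℕ} {α β : Fin k → ℤ} (y p : ℕ) (hp : p.Prime) (hy : y < p) :
    (EE S α β y p).card ≤ S.card := by
  classical
  refine (card_le_card ?_).trans (card_S S p hp.pos)
  intro c hc
  unfold EE at hc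
  rw [mem_filter] at hc
  rw [mem_filter]
  rcases hc.2 with h | h
  · exact ⟨hc.1, h⟩
  · omega

theorem Ok.adm {i j : ℕ} {S : Finset ℕ} {k : ℕ} {α β : Fin k → ℤ} (h : Ok i j S α β) : Adm α β := by
  intro p hp
  obtain ⟨r, -, -, -, h4⟩ := h p hp
  exact ⟨r, h4⟩

theorem mod_dvd (p n h : ℕ) : p ∣ n % p + h ↔ p ∣ n + h := by
  have h1 : n % p + h ≡ n + h [MOD p] := (Nat.mod_modEq n p).add_right h
  exact h1.dvd_iff dvd_rfl

theorem mod_dvd' (p n : ℕ) (a b : ℤ) : (p : ℤ) ∣ a * ((n % p : ℕ) : ℤ) + b ↔ (p : ℤ) ∣ a * (n : ℤ) + b := by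
  have h1 : ((n % p : ℕ) : ℤ) ≡ (n : ℤ) [ZMOD p] := by
    rw [Int.natCast_mod]
    exact Int.mod_modEq _ _
  have h2 : a * ((n % p : ℕ) : ℤ) + b ≡ a * (n : ℤ) + b [ZMOD p] := (h1.mul_left a).add_right b
  exact h2.dvd_iff

theorem ev_pow_small (E : ℕ) (s : ℝ) (hs : 0 < s) : ∃ N₀ : ℕ, ∀ N : ℕ, N₀ ≤ N → Real.log N ^ E < (N : ℝ) ^ s := by
  obtain ⟨N₀, h⟩ := Filter.eventually_atTop.1 (Pool.Agent.Y614.GJ.Core.ev_log (E + 1) hs 2)
  refine ⟨N₀, fun N hN => ?_⟩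
  obtain ⟨h1, h2⟩ := h N hN
  refine lt_of_lt_of_le ?_ h2
  rw [pow_succ]
  have : 0 < Real.log N ^ E := by positivity
  nlinarith

/-- the lower bound for the model -/
theorem model_low (i j : ℕ) (hij : i ≠ j) (S : Finset ℕ) (k : ℕ) : ∃ (δ c : ℝ), 0 < δ ∧ 0 < c ∧ ∀ E : ℕ, ∃ X₀ : ℕ,
    ∀ X : ℕ, X₀ ≤ X → ∀ y : ℕ, Real.log X ≤ y → (y : ℝ) ≤ Real.log X ^ E → ∀ α β : Fin k → ℤ, Ok i j S α β →
    c * (X / Real.log X ^ (S.card + 2)) ≤ ∑ n ∈ Bs i j S δ X, ∏ l, mdl y (α l * (n : ℤ) + β l) := by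
  classical
  obtain ⟨z, hz⟩ := chen_low S.card k i j hij
  obtain ⟨δ, c, X₀, hδ, hc, h⟩ := hz z le_rfl
  obtain ⟨C, hC, hV⟩ := Pool.Agent.W93.HD.Vz_log_le
  obtain ⟨n1, h1⟩ := Pool.Agent.KS6_51.CH.ev_log (z + 3)
  refine ⟨δ, c / C ^ k, hδ, by positivity, fun E => ?_⟩
  obtain ⟨n2, h2⟩ := ev_pow_small E (min δ (1 / 2)) (by positivity)
  refine ⟨X₀ + n1 + n2 + 2, fun X hX y hy1 hy2 α β hok => ?_⟩
  have hL := h1 X (by omega)
  have hyX := h2 X (by omega)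
  have hX1 : (1 : ℝ) ≤ X := by exact_mod_cast (by omega : 1 ≤ X)
  have hz0 : (0 : ℝ) ≤ z := Nat.cast_nonneg _
  have hyz : z ≤ y := by
    have : (z : ℝ) ≤ y := by linarith
    exact_mod_cast this
  have hy3 : 3 ≤ y := by
    have : (3 : ℝ) ≤ y := by linarith
    exact_mod_cast this
  have hyδ : (y : ℝ) < (X : ℝ) ^ δ := by
    refine (hy2.trans_lt hyX).trans_le ?_
    exact Real.rpow_le_rpow_of_exponent_le hX1 (min_le_left _ _)
  have hyX2 : y ^ 2 ≤ X := by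
    have e1 : (y : ℝ) ≤ (X : ℝ) ^ (1 / 2 : ℝ) := by
      refine (hy2.trans hyX.le).trans ?_
      exact Real.rpow_le_rpow_of_exponent_le hX1 (min_le_right _ _)
    have e2 : (y : ℝ) ^ 2 ≤ X := by
      calc (y : ℝ) ^ 2 ≤ ((X : ℝ) ^ (1 / 2 : ℝ)) ^ 2 := pow_le_pow_left₀ (Nat.cast_nonneg _) e1 2
        _ = X := by
          rw [← Real.rpow_natCast, ← Real.rpow_mul (by linarith)]
          norm_num
    exact_mod_cast e2
  have hadm := hok.adm
  have key := h X (by omega) y hyz hyX2 (EE S α β y)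
    (fun p hp _ => card_EE1 hadm y p hp) (fun p hp hyp => card_EE2 y p hp hyp) (by
      intro p hp _
      obtain ⟨r, r1, r2, r3, r4⟩ := hok p hp
      have hp0 : (p : ℤ) ≠ 0 := by exact_mod_cast hp.ne_zero
      obtain ⟨a, ha⟩ := Int.eq_ofNat_of_zero_le (Int.emod_nonneg r hp0)
      have har : (a : ℤ) ≡ r [ZMOD p] := by rw [← ha]; exact Int.mod_modEq _ _
      have f1 : ∀ s : ℕ, p ∣ a + s → (p : ℤ) ∣ r + s := by
        intro s hs
        have h4 : ((p : ℕ) : ℤ) ∣ ((a + s : ℕ) : ℤ) := Int.natCast_dvd_natCast.2 hs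
        push_cast at h4
        exact ((har.add_right (s : ℤ)).dvd_iff).1 h4
      refine ⟨a, ?_, fun hd => r1 (f1 i hd), fun hd => r2 (f1 j hd)⟩
      intro hmem
      unfold EE at hmem
      rw [mem_filter] at hmem
      rcases hmem.2 with ⟨h', hh', hd⟩ | ⟨-, l, hd⟩
      · exact r3 h' hh' (f1 h' ((mod_dvd p a h').1 hd))
      · apply r4 l
        have h5 := (mod_dvd' p a (α l) (β l)).1 hd
        exact (((har.mul_left (α l)).add_right (β l)).dvd_iff).1 h5)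
  -- the members of `Good`
  have hmem : ∀ n ∈ Good X i j δ (EE S α β y), n ∈ Bs i j S δ X ∧ ∀ l, mdl y (α l * (n : ℤ) + β l) = (Vz y)⁻¹ := by
    intro n hn
    unfold Good at hn
    rw [mem_filter, mem_Ioc] at hn
    obtain ⟨hnX, hpr, hlen, hpf, hE⟩ := hn
    constructor
    · unfold Bs
      rw [mem_filter, mem_Ioc]
      refine ⟨hnX, hpr, hlen, hpf, ?_⟩
      intro h' hh' p hp hd
      by_contra hlt
      push Not at hlt
      apply hE p hp hlt
      unfold EE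
      rw [mem_filter, mem_range]
      exact ⟨Nat.mod_lt _ hp.pos, Or.inl ⟨h', hh', (mod_dvd p n h').2 hd⟩⟩
    · intro l
      unfold mdl
      rw [if_pos]
      intro p hp hd
      rw [mem_pz] at hp
      have hpy : p ≤ y := by omega
      apply hE p hp.2 (lt_of_le_of_lt (by exact_mod_cast hpy) hyδ)
      unfold EE
      rw [mem_filter, mem_range]
      exact ⟨Nat.mod_lt _ hp.2.pos, Or.inr ⟨hpy, l, (mod_dvd' p n (α l) (β l)).2 hd⟩⟩
  have hVp := Vz_pos y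
  have hly : 0 < Real.log y := Real.log_pos (by exact_mod_cast (by omega : 1 < y))
  have hlX : 0 < Real.log X := by linarith
  have hsum : ((Good X i j δ (EE S α β y)).card : ℝ) * ((Vz y)⁻¹) ^ k ≤ ∑ n ∈ Bs i j S δ X, ∏ l, mdl y (α l * (n : ℤ) + β l) := by
    have e1 : ((Good X i j δ (EE S α β y)).card : ℝ) * ((Vz y)⁻¹) ^ k =
        ∑ n ∈ Good X i j δ (EE S α β y), ∏ l, mdl y (α l * (n : ℤ) + β l) := by
      rw [← nsmul_eq_mul, ← sum_const]
      apply sum_congr rfl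
      intro n hn
      rw [prod_congr rfl fun l _ => (hmem n hn).2 l, prod_const, card_univ, Fintype.card_fin]
    rw [e1]
    apply sum_le_sum_of_subset_of_nonneg
    · intro n hn
      exact (hmem n hn).1
    · intro n _ _
      exact prod_nonneg fun l _ => mdl_nonneg _ _
  refine le_trans ?_ hsum
  refine le_trans ?_ (mul_le_mul_of_nonneg_right key (by positivity))
  have hVl : (Vz y * Real.log y) ^ k ≤ C ^ k := pow_le_pow_left₀ (by positivity) (hV y hy3) k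
  have e2 : c * (X / (Real.log y ^ k * Real.log X ^ (S.card + 2))) * ((Vz y)⁻¹) ^ k =
      c * (X / Real.log X ^ (S.card + 2)) * (1 / (Vz y * Real.log y) ^ k) := by
    have hly' := hly.ne'
    have hlX' := hlX.ne'
    have hVp' := hVp.ne'
    rw [mul_pow, inv_pow]
    field_simp
  rw [e2]
  have e3 : c / C ^ k * (X / Real.log X ^ (S.card + 2)) = c * (X / Real.log X ^ (S.card + 2)) * (1 / C ^ k) := by ring
  rw [e3]
  apply mul_le_mul_of_nonneg_left _ (by positivity)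
  exact one_div_le_one_div_of_le (by positivity) hVl

end Pool.Agent.KS6_25.CP
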