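import Pool.Agent.KS6_25.SH.G7

/-!
# Sets of positions with a lower bound for the sieve model: primes at the members of thin families in short intervals
-/

set_option autoImplicit false

namespace Pool.Agent.KS6_25.CP

open Finset Filter
open Pool.Agent.H373R2.T7
open Pool.Agent.TH935.TF
open Pool.Agent.W93.PP (markov)
open Pool.Agent.W93.GB (pp pp_nonneg)
open Pool.Agent.Y614.GJ.Core (ev_log)
open Pool.Agent.KS6_25.SH (prod_short)

/-- a lower bound for the sieve model at the positions `W X` -/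
def ModelLow (W : ℕ → Finset ℕ) {k : ℕ} (Cond : (Fin k → ℤ) → (Fin k → ℤ) → Prop) (e₀ : ℕ) (c₀ : ℝ) : Prop :=
  ∀ E : ℕ, ∃ X₀ : ℕ, ∀ X : ℕ, X₀ ≤ X → ∀ y : ℕ, Real.log X ≤ y → (y : ℝ) ≤ Real.log X ^ E → ∀ α β : Fin k → ℤ, Cond α β →
    c₀ * (X / Real.log X ^ e₀) ≤ ∑ n ∈ W X, ∏ l, mdl y (α l * (n : ℤ) + β l)

open Classical in
/-- the number of the positions at which all forms are prime -/
noncomputable def cntW (W : Finset ℕ) {k : ℕ} (α β : Fin k → ℤ) : ℕ :=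
  (W.filter (fun n : ℕ => ∀ l, (α l * (n : ℤ) + β l).natAbs.Prime)).card

/-- the property of the member `β` -/
def CC (W : ℕ → Finset ℕ) {k : ℕ} (Cond : (Fin k → ℤ) → (Fin k → ℤ) → Prop) (e₀ : ℕ) (c : ℝ) (D N : ℕ) (β : Fin k → ℤ) : Prop :=
  ∀ α : Fin k → ℤ, (∀ l, α l ≠ 0) → (∀ l, ((α l).natAbs : ℝ) ≤ Real.log N ^ D) → Cond α β →
    c * (N / Real.log N ^ (e₀ + k)) ≤ (cntW (W N) α β : ℝ)

/-- from weights to primes -/
theorem wt_le' {k : ℕ} (hk : 1 ≤ k) (W : Finset ℕ) (α β : Fin k → ℤ) (hα : ∀ i, α i ≠ 0) (X y : ℕ) (hX : 1 ≤ X)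
    (hW : W ⊆ Ioc 0 y) (hb : ∀ i, ∀ n ∈ Ioc 0 y, (α i * (n : ℤ) + β i).natAbs ≤ X) :
    ∑ n ∈ W, ∏ i, LL (α i * (n : ℤ) + β i) ≤ Real.log X ^ k * (cntW W α β + 4 * k * √(X : ℝ)) := by
  classical
  obtain ⟨M, hM⟩ : ∃ M, M = Real.log (X : ℝ) := ⟨_, rfl⟩
  have hM0 : 0 ≤ M := by rw [hM]; exact Real.log_natCast_nonneg X
  rw [← hM]
  have h1 : ∀ n ∈ W, ∏ i, LL (α i * (n : ℤ) + β i) ≤
      (if ∀ i, (α i * (n : ℤ) + β i).natAbs.Prime then M ^ k else 0) +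
        M ^ (k - 1) * ∑ i, pp (α i * (n : ℤ) + β i).natAbs := by
    intro n hn
    have hle : ∀ i, LL (α i * (n : ℤ) + β i) ≤ M := by
      intro i
      rw [hM]
      exact LL_le _ X hX (hb i n (hW hn))
    have hpp0 : 0 ≤ ∑ i, pp (α i * (n : ℤ) + β i).natAbs := sum_nonneg fun i _ => pp_nonneg _
    by_cases hp : ∀ i, (α i * (n : ℤ) + β i).natAbs.Prime
    · rw [if_pos hp]
      have h2 : ∏ i, LL (α i * (n : ℤ) + β i) ≤ M ^ k := by
        calc ∏ i, LL (α i * (n : ℤ) + β i) ≤ ∏ _i : Fin k, M := prod_le_prod (fun i _ => LL_nonneg _) (fun i _ => hle i)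
          _ = M ^ k := by rw [prod_const, card_univ, Fintype.card_fin]
      have : 0 ≤ M ^ (k - 1) * ∑ i, pp (α i * (n : ℤ) + β i).natAbs := by positivity
      linarith
    · rw [if_neg hp, zero_add]
      push Not at hp
      obtain ⟨i₀, hi₀⟩ := hp
      have e1 : LL (α i₀ * (n : ℤ) + β i₀) = pp (α i₀ * (n : ℤ) + β i₀).natAbs := by
        unfold pp LL
        rw [lamP_nat, if_neg hi₀, sub_zero]
      rw [← mul_prod_erase univ (fun i => LL (α i * (n : ℤ) + β i)) (mem_univ i₀)]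
      rw [e1]
      have e2 : ∏ i ∈ univ.erase i₀, LL (α i * (n : ℤ) + β i) ≤ M ^ (k - 1) := by
        calc ∏ i ∈ univ.erase i₀, LL (α i * (n : ℤ) + β i) ≤ ∏ _i ∈ univ.erase i₀, M :=
              prod_le_prod (fun i _ => LL_nonneg _) (fun i _ => hle i)
          _ = M ^ (k - 1) := by rw [prod_const, card_erase_of_mem (mem_univ _), card_univ, Fintype.card_fin]
      have e3 : pp (α i₀ * (n : ℤ) + β i₀).natAbs ≤ ∑ i, pp (α i * (n : ℤ) + β i).natAbs :=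
        single_le_sum (f := fun i => pp (α i * (n : ℤ) + β i).natAbs) (fun i _ => pp_nonneg _) (mem_univ i₀)
      rw [mul_comm]
      exact mul_le_mul e2 e3 (pp_nonneg _) (by positivity)
  refine (sum_le_sum h1).trans ?_
  rw [sum_add_distrib, ← mul_sum]
  have h2 : ∑ n ∈ W, (if ∀ i, (α i * (n : ℤ) + β i).natAbs.Prime then M ^ k else 0) = cntW W α β * M ^ k := by
    rw [← sum_filter, sum_const, nsmul_eq_mul]
    unfold cntW
    congr!
  have h3 : ∑ n ∈ W, ∑ i, pp (α i * (n : ℤ) + β i).natAbs ≤ k * (4 * √(X : ℝ) * M) := by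
    rw [sum_comm]
    calc ∑ i, ∑ n ∈ W, pp (α i * (n : ℤ) + β i).natAbs ≤ ∑ _i : Fin k, (4 * √(X : ℝ) * M) := by
          apply sum_le_sum
          intro i _
          rw [hM]
          refine le_trans ?_ (pp_form (α i) (β i) (hα i) X 0 y hX (hb i))
          exact sum_le_sum_of_subset_of_nonneg hW fun _ _ _ => pp_nonneg _
      _ = _ := by rw [sum_const, card_univ, Fintype.card_fin, nsmul_eq_mul]
  rw [h2]
  have h4 : M ^ (k - 1) * ∑ n ∈ W, ∑ i, pp (α i * (n : ℤ) + β i).natAbs ≤ M ^ (k - 1) * (k * (4 * √(X : ℝ) * M)) :=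
    mul_le_mul_of_nonneg_left h3 (by positivity)
  have e : M ^ (k - 1) * (k * (4 * √(X : ℝ) * M)) = M ^ k * (4 * k * √(X : ℝ)) := by
    have : M ^ k = M ^ (k - 1) * M := by rw [← pow_succ]; congr 1; omega
    rw [this]
    ring
  rw [e] at h4
  rw [mul_add]
  linarith

set_option maxHeartbeats 4000000 in
/-- the transfer -/
theorem low_short {k : ℕ} (hk : 1 ≤ k) (W : ℕ → Finset ℕ) (A : ℕ) (hW : ∀ X, W X ⊆ Ioc 0 (A * X))
    (Cond : (Fin k → ℤ) → (Fin k → ℤ) → Prop) (e₀ : ℕ) (c₀ : ℝ) (hc₀ : 0 < c₀) (hlow : ModelLow W Cond e₀ c₀)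
    (h B C D U : ℕ) (hh : 1 ≤ h) {ρ : ℝ} (hρ : 0 < ρ) (hρ1 : ρ ≤ 1 / 4) : ∃ N0 : ℕ, ∀ N : ℕ, N0 ≤ N →
    ∀ (x : Fin k → ℕ) (s : Fin k → ℕ → ℤ) (s₀ : Fin k → ℤ) (H : Fin k → ℕ), (∀ i, (N : ℝ) ^ (1 / 3 + ρ) ≤ H i) → (∀ i, H i ≤ N) →
    (∀ i, ∀ j ∈ Icc 1 (x i), |s i j| ≤ B * N) → (∀ i, ∀ j ∈ Icc 1 (x i), s₀ i ≤ s i j ∧ s i j ≤ s₀ i + H i) →
    (∀ i, (Pool.Agent.H373R2.T7.energy h (x i) (s i) : ℝ) * H i ≤ Real.log N ^ C * (x i : ℝ) ^ (2 * h)) →
    ∀ 𝒮 : Finset (Fin k → ℕ), 𝒮 ⊆ Fintype.piFinset (fun i => Icc 1 (x i)) →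
    (∀ q ∈ 𝒮, ¬ CC W Cond e₀ (c₀ / 2 ^ (k + 2)) D N (fun i => s i (q i))) → (𝒮.card : ℝ) ≤ (∏ i, (x i : ℝ)) / Real.log N ^ U := by
  classical
  obtain ⟨U', hU'⟩ : ∃ U', U' = U + e₀ + D + 8 + k * (D + 1) := ⟨_, rfl⟩
  obtain ⟨B0, hB0⟩ := prod_short k h C U' hh (ρ := ρ / 2) (by linarith) (by linarith)
  obtain ⟨n0, h0⟩ := hB0 (B0 + 2)
  obtain ⟨n1, h1⟩ := hlow (2 * (B0 + 2))
  obtain ⟨n2, h2⟩ := ev_L' (A * 2 ^ D + B * 2 ^ D + A + B + 10 + h + 2 ^ (B0 + 2) + 16 * k + 4 / c₀ + 2 ^ k)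
  obtain ⟨n4, h4⟩ := Filter.eventually_atTop.1 (ev_log (D + 3) (s := ρ / 2) (by linarith) 1)
  obtain ⟨n3, h3⟩ := ev_log' (D + 3) 1
  obtain ⟨n5, h5⟩ := Filter.eventually_atTop.1 (ev_log (e₀ + 2 * k + D + 8) (s := 1 / 4) (by norm_num) 1)
  refine ⟨n0 + n1 + n2 + n3 + n4 + n5 + 3, fun N hN x s s₀ H hHρ hHN hsb hsH hE 𝒮 hSx hS => ?_⟩
  have b1 := h1 N (by omega)
  have b2 := h2 N (by omega)
  have b3 := h3 N (by omega)
  obtain ⟨-, b4⟩ := h4 N (by omega)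
  obtain ⟨-, b5⟩ := h5 N (by omega)
  obtain ⟨L, hL⟩ : ∃ L, L = Real.log (N : ℝ) := ⟨_, rfl⟩
  rw [← hL] at b1 b2 b3 b4 b5 hE ⊢
  have hh0 : (0 : ℝ) ≤ h := Nat.cast_nonneg _
  rw [one_mul] at b3
  have hB0' : (0 : ℝ) ≤ B := Nat.cast_nonneg _
  have hA0' : (0 : ℝ) ≤ A := Nat.cast_nonneg _
  have hk0' : (0 : ℝ) ≤ k := Nat.cast_nonneg _
  have hBD : 0 ≤ (B : ℝ) * 2 ^ D := by positivity
  have hAD : 0 ≤ (A : ℝ) * 2 ^ D := by positivity
  have h2B : (0 : ℝ) ≤ 2 ^ (B0 + 2) := by positivity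
  have h2k : (0 : ℝ) ≤ 2 ^ k := by positivity
  have h4c : 0 ≤ 4 / c₀ := by positivity
  have hL10 : 10 ≤ L := by linarith
  have hL1 : 1 ≤ L := by linarith
  have hL0 : 0 < L := by linarith
  have hNr : (3 : ℝ) ≤ N := by exact_mod_cast (by omega : 3 ≤ N)
  have hN0 : (0 : ℝ) < N := by linarith
  obtain ⟨X, hX⟩ : ∃ X : ℕ, X = N * ⌈L ^ (D + 2)⌉₊ := ⟨_, rfl⟩
  have hc1 : L ^ (D + 2) ≤ (⌈L ^ (D + 2)⌉₊ : ℝ) := Nat.le_ceil _
  have hc2 : (⌈L ^ (D + 2)⌉₊ : ℝ) ≤ L ^ (D + 3) := by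
    have h5 : (⌈L ^ (D + 2)⌉₊ : ℝ) < L ^ (D + 2) + 1 := Nat.ceil_lt_add_one (by positivity)
    have h6 : 1 ≤ L ^ (D + 2) := one_le_pow₀ hL1
    rw [show D + 3 = (D + 2) + 1 by ring, pow_succ L (D + 2)]
    nlinarith
  have hXr : (X : ℝ) = N * (⌈L ^ (D + 2)⌉₊ : ℝ) := by rw [hX]; push_cast; rfl
  have hX1 : (N : ℝ) * L ^ (D + 2) ≤ X := by rw [hXr]; exact mul_le_mul_of_nonneg_left hc1 hN0.le
  have hX2 : (X : ℝ) ≤ N * L ^ (D + 3) := by rw [hXr]; exact mul_le_mul_of_nonneg_left hc2 hN0.le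
  have hNX : (N : ℝ) ≤ X := (le_mul_of_one_le_right hN0.le (one_le_pow₀ hL1)).trans hX1
  have hNXn : N ≤ X := by exact_mod_cast hNX
  have hX0 : (0 : ℝ) < X := by linarith
  obtain ⟨LX, hLX⟩ : ∃ LX, LX = Real.log (X : ℝ) := ⟨_, rfl⟩
  have hLLX : L ≤ LX := by rw [hL, hLX]; exact Real.log_le_log hN0 hNX
  have hLX0 : 0 < LX := by linarith
  have hLX1 : 1 ≤ LX := by linarith
  have hLX2 : LX ≤ 2 * L := by
    have e1 : (X : ℝ) ≤ N ^ 2 := by
      refine hX2.trans ?_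
      rw [sq]
      apply mul_le_mul_of_nonneg_left _ hN0.le
      refine b3.trans ?_
      rw [Real.sqrt_le_left hN0.le]
      nlinarith
    have e2 := Real.log_le_log hX0 e1
    rw [Real.log_pow, ← hL, ← hLX] at e2
    exact_mod_cast e2
  have hLpow : L ≤ L ^ (D + 2) := le_self_pow₀ hL1 (by omega)
  have hBL : (B : ℝ) ≤ L ^ (D + 2) := by linarith
  have hBX : (B : ℝ) * N ≤ X := by
    refine le_trans ?_ hX1
    rw [mul_comm]
    exact mul_le_mul_of_nonneg_left hBL hN0.le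
  have hBXn : B * N ≤ X := by exact_mod_cast hBX
  have hsX : ∀ i, ∀ j ∈ Icc 1 (x i), |s i j| ≤ X := by
    intro i j hj
    refine (hsb i j hj).trans ?_
    exact_mod_cast hBXn
  have hprod0 : (0 : ℝ) ≤ ∏ i, (x i : ℝ) := prod_nonneg fun i _ => Nat.cast_nonneg _
  by_cases hx : ∀ i, 1 ≤ x i
  swap
  · push Not at hx
    obtain ⟨i, hi⟩ := hx
    have h5 : Fintype.piFinset (fun i => Icc 1 (x i)) = ∅ := by
      rw [Fintype.piFinset_eq_empty]
      exact ⟨i, Icc_eq_empty (by omega)⟩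
    rw [h5] at hSx
    rw [subset_empty.1 hSx, card_empty, Nat.cast_zero]
    positivity
  have c1 := h0 X (by omega) x s s₀ H (by
      intro i
      refine le_trans ?_ (hHρ i)
      have g1 : (X : ℝ) ^ (1 / 3 + ρ / 2) ≤ (N * L ^ (D + 3)) ^ (1 / 3 + ρ / 2) :=
        Real.rpow_le_rpow hX0.le hX2 (by positivity)
      refine g1.trans ?_
      rw [Real.mul_rpow hN0.le (by positivity)]
      have g2 : (L ^ (D + 3)) ^ (1 / 3 + ρ / 2) ≤ L ^ (D + 3) := by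
        nth_rewrite 2 [← Real.rpow_one (L ^ (D + 3))]
        exact Real.rpow_le_rpow_of_exponent_le (one_le_pow₀ hL1) (by linarith)
      calc (N : ℝ) ^ (1 / 3 + ρ / 2) * (L ^ (D + 3)) ^ (1 / 3 + ρ / 2) ≤ (N : ℝ) ^ (1 / 3 + ρ / 2) * (N : ℝ) ^ (ρ / 2) :=
            mul_le_mul_of_nonneg_left (g2.trans b4) (by positivity)
        _ = (N : ℝ) ^ (1 / 3 + ρ) := by
            rw [← Real.rpow_add hN0]
            congr 1
            ring) (by
      intro i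
      have g1 : ((h * H i : ℕ) : ℝ) ≤ X := by
        push_cast
        have g2 : (H i : ℝ) ≤ N := by exact_mod_cast hHN i
        have g3 : (h : ℝ) ≤ L ^ (D + 2) := by linarith
        calc (h : ℝ) * H i ≤ L ^ (D + 2) * N := by gcongr
          _ = N * L ^ (D + 2) := mul_comm _ _
          _ ≤ X := hX1
      exact_mod_cast g1) hx hsX hsH (by
      intro i
      rw [← hLX]
      refine (hE i).trans ?_
      gcongr)
  rw [← hLX] at c1
  -- the sieve level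
  obtain ⟨z, hz⟩ : ∃ z, z = ⌈LX ^ (B0 + 1)⌉₊ := ⟨_, rfl⟩
  have hz1 : LX ^ (B0 + 1) ≤ z := by rw [hz]; exact Nat.le_ceil _
  have hz2 : (z : ℝ) ≤ LX ^ (B0 + 2) := by
    rw [hz]
    have h5 : (⌈LX ^ (B0 + 1)⌉₊ : ℝ) < LX ^ (B0 + 1) + 1 := Nat.ceil_lt_add_one (by positivity)
    have h6 : 1 ≤ LX ^ (B0 + 1) := one_le_pow₀ hLX1
    rw [show B0 + 2 = (B0 + 1) + 1 by ring, pow_succ LX (B0 + 1)]
    nlinarith
  have hzL1 : L ≤ z := (hLLX.trans (le_self_pow₀ hLX1 (by omega))).trans hz1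
  have hzL2 : (z : ℝ) ≤ L ^ (2 * (B0 + 2)) := by
    calc (z : ℝ) ≤ LX ^ (B0 + 2) := hz2
      _ ≤ (2 * L) ^ (B0 + 2) := pow_le_pow_left₀ hLX0.le hLX2 _
      _ = 2 ^ (B0 + 2) * L ^ (B0 + 2) := mul_pow _ _ _
      _ ≤ L ^ (B0 + 2) * L ^ (B0 + 2) := by
          apply mul_le_mul_of_nonneg_right _ (by positivity)
          have : L ≤ L ^ (B0 + 2) := le_self_pow₀ hL1 (by omega)
          linarith
      _ = L ^ (2 * (B0 + 2)) := by rw [← pow_add]; congr 1; ring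
  obtain ⟨R, hR⟩ : ∃ R : ℕ, R = ⌊L ^ D⌋₊ := ⟨_, rfl⟩
  have hRL : (R : ℝ) ≤ L ^ D := by rw [hR]; exact Nat.floor_le (by positivity)
  obtain ⟨I, hI⟩ : ∃ I : Finset (Fin k → ℤ), I = Fintype.piFinset (fun _ => Icc (-(R : ℤ)) (R : ℤ)) := ⟨_, rfl⟩
  have hIcard : (I.card : ℝ) ≤ L ^ (k * (D + 1)) := by
    rw [hI, Fintype.card_piFinset, prod_const, card_univ, Fintype.card_fin, Int.card_Icc]
    have e1 : ((R : ℤ) + 1 - -(R : ℤ)).toNat = 2 * R + 1 := by omega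
    rw [e1]
    push_cast
    have hLD : 1 ≤ L ^ D := one_le_pow₀ hL1
    have f3 : 2 * (R : ℝ) + 1 ≤ L ^ (D + 1) := by rw [pow_succ]; nlinarith
    calc (2 * (R : ℝ) + 1) ^ k ≤ (L ^ (D + 1)) ^ k := by gcongr
      _ = L ^ (k * (D + 1)) := by rw [← pow_mul]; congr 1; ring
  -- sizes of the forms
  have hαX : ∀ α : ℤ, (α.natAbs : ℝ) ≤ L ^ D → α.natAbs * (A * N) ≤ X := by
    intro α hα
    have h8 : (α.natAbs : ℝ) * (A * N) ≤ X := by
      calc (α.natAbs : ℝ) * (A * N) ≤ L ^ D * (L * N) := by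
            apply mul_le_mul hα _ (by positivity) (by positivity)
            apply mul_le_mul_of_nonneg_right _ hN0.le
            linarith
        _ = N * L ^ (D + 1) := by ring
        _ ≤ N * L ^ (D + 2) := by
            apply mul_le_mul_of_nonneg_left _ hN0.le
            exact pow_le_pow_right₀ hL1 (by omega)
        _ ≤ X := hX1
    exact_mod_cast h8
  -- a small error implies the property
  have hdet : ∀ q ∈ Fintype.piFinset (fun i => Icc 1 (x i)), ∀ α : Fin k → ℤ, (∀ l, α l ≠ 0) → (∀ l, ((α l).natAbs : ℝ) ≤ L ^ D) →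
      Cond α (fun i => s i (q i)) →
      |∑ n ∈ Icc 1 (A * N), (if n ∈ W N then (1 : ℝ) else 0) * (∏ j, LL (α j * (n : ℤ) + s j (q j)) - ∏ j, mdl z (α j * (n : ℤ) + s j (q j)))| <
        c₀ / 2 * (N / L ^ e₀) →
      c₀ / 2 ^ (k + 2) * (N / L ^ (e₀ + k)) ≤ (cntW (W N) α (fun i => s i (q i)) : ℝ) := by
    intro q hq α hα hαL hcond herr
    have hm := b1 z hzL1 hzL2 α (fun i => s i (q i)) hcond
    have e1 : ∑ n ∈ Icc 1 (A * N), (if n ∈ W N then (1 : ℝ) else 0) * (∏ j, LL (α j * (n : ℤ) + s j (q j)) - ∏ j, mdl z (α j * (n : ℤ) + s j (q j))) =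
        ∑ n ∈ W N, ∏ j, LL (α j * (n : ℤ) + s j (q j)) - ∑ n ∈ W N, ∏ j, mdl z (α j * (n : ℤ) + s j (q j)) := by
      rw [← sum_sub_distrib]
      have hsub : W N ⊆ Icc 1 (A * N) := hW N
      rw [← inter_eq_right.2 hsub, ← sum_ite_mem]
      apply sum_congr rfl
      intro n _
      rw [inter_eq_right.2 hsub]
      split_ifs <;> simp
    rw [e1] at herr
    have e2 := (abs_lt.1 herr).1
    have hXX : 1 ≤ 2 * X := by omega
    have hbd : ∀ i, ∀ n ∈ Ioc 0 (A * N), (α i * (n : ℤ) + s i (q i)).natAbs ≤ 2 * X := by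
      intro i n hn
      rw [mem_Ioc] at hn
      have f1 := hsX i (q i) (Fintype.mem_piFinset.1 hq i)
      have f2 : (α i).natAbs * n ≤ X := (Nat.mul_le_mul_left _ hn.2).trans (hαX _ (hαL i))
      have f3 : (α i * (n : ℤ)).natAbs ≤ X := by rw [Int.natAbs_mul, Int.natAbs_natCast]; exact f2
      have f4 : (s i (q i)).natAbs ≤ X := by
        have : ((s i (q i)).natAbs : ℤ) ≤ X := by rw [Int.natCast_natAbs]; exact f1
        exact_mod_cast this
      have := Int.natAbs_add_le (α i * (n : ℤ)) (s i (q i))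
      omega
    have hw := wt_le' hk (W N) α (fun i => s i (q i)) hα (2 * X) (A * N) hXX (hW N) hbd
    have hlow2 : c₀ / 2 * (N / L ^ e₀) ≤ ∑ n ∈ W N, ∏ j, LL (α j * (n : ℤ) + s j (q j)) := by
      have e4 : c₀ * (N / L ^ e₀) = c₀ / 2 * (N / L ^ e₀) + c₀ / 2 * (N / L ^ e₀) := by ring
      linarith
    obtain ⟨M, hM⟩ : ∃ M, M = Real.log ((2 * X : ℕ) : ℝ) := ⟨_, rfl⟩
    rw [← hM] at hw
    have hX4 : (2 : ℝ) * X ≤ N * L ^ (D + 4) := by
      rw [show D + 4 = (D + 3) + 1 by ring, pow_succ L (D + 3)]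
      have : (X : ℝ) * 2 ≤ N * L ^ (D + 3) * L := mul_le_mul hX2 (by linarith) (by norm_num) (by positivity)
      linarith
    have hM2 : M ≤ 2 * L := by
      have e5 : ((2 * X : ℕ) : ℝ) ≤ (N : ℝ) ^ 2 := by
        push_cast
        refine hX4.trans ?_
        have f5 : L ^ (D + 4) ≤ N := by
          calc L ^ (D + 4) ≤ L ^ (e₀ + 2 * k + D + 8) := pow_le_pow_right₀ hL1 (by omega)
            _ ≤ (N : ℝ) ^ (1 / 4 : ℝ) := b5
            _ ≤ (N : ℝ) ^ (1 : ℝ) := Real.rpow_le_rpow_of_exponent_le (by linarith) (by norm_num)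
            _ = N := Real.rpow_one _
        rw [sq]
        exact mul_le_mul_of_nonneg_left f5 hN0.le
      have e6 := Real.log_le_log (by exact_mod_cast (by omega : 0 < 2 * X)) e5
      rw [Real.log_pow, ← hL, ← hM] at e6
      exact_mod_cast e6
    have hM0 : 0 ≤ M := by rw [hM]; exact Real.log_natCast_nonneg _
    have hsq : √((2 * X : ℕ) : ℝ) ≤ √(N : ℝ) * L ^ (D + 4) := by
      have e7 : ((2 * X : ℕ) : ℝ) ≤ N * (L ^ (D + 4)) ^ 2 := by
        push_cast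
        refine hX4.trans ?_
        apply mul_le_mul_of_nonneg_left _ hN0.le
        rw [sq]
        exact le_mul_of_one_le_left (by positivity) (one_le_pow₀ hL1)
      refine (Real.sqrt_le_sqrt e7).trans ?_
      rw [Real.sqrt_mul hN0.le, Real.sqrt_sq (by positivity)]
    obtain ⟨cc, hcc⟩ : ∃ cc : ℝ, cc = (cntW (W N) α (fun i => s i (q i)) : ℝ) := ⟨_, rfl⟩
    rw [← hcc] at hw ⊢
    have hcc0 : 0 ≤ cc := by rw [hcc]; exact Nat.cast_nonneg _
    have e8 : c₀ / 2 * (N / L ^ e₀) ≤ (2 * L) ^ k * (cc + 4 * k * (√(N : ℝ) * L ^ (D + 4))) := by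
      refine hlow2.trans (hw.trans ?_)
      apply mul_le_mul (pow_le_pow_left₀ hM0 hM2 k) _ (by positivity) (by positivity)
      have : 4 * (k : ℝ) * √((2 * X : ℕ) : ℝ) ≤ 4 * k * (√(N : ℝ) * L ^ (D + 4)) :=
        mul_le_mul_of_nonneg_left hsq (by positivity)
      linarith
    have hsq2 : √(N : ℝ) * L ^ (e₀ + 2 * k + D + 8) ≤ N := by
      calc √(N : ℝ) * L ^ (e₀ + 2 * k + D + 8) ≤ (N : ℝ) ^ (1 / 2 : ℝ) * (N : ℝ) ^ (1 / 4 : ℝ) := by
            rw [← Real.sqrt_eq_rpow]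
            exact mul_le_mul_of_nonneg_left b5 (Real.sqrt_nonneg _)
        _ = (N : ℝ) ^ (3 / 4 : ℝ) := by rw [← Real.rpow_add hN0]; norm_num
        _ ≤ (N : ℝ) ^ (1 : ℝ) := Real.rpow_le_rpow_of_exponent_le (by linarith) (by norm_num)
        _ = N := Real.rpow_one _
    have e9 : 4 * (k : ℝ) * (√(N : ℝ) * L ^ (D + 4)) ≤ c₀ / 2 ^ (k + 2) * (N / L ^ (e₀ + k)) := by
      have g1 : (4 / c₀) * (4 * k) * 2 ^ k ≤ L ^ 3 := by
        have g2 : 4 / c₀ ≤ L := by linarith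
        have g3 : 4 * (k : ℝ) ≤ L := by linarith
        have g4 : (2 : ℝ) ^ k ≤ L := by linarith
        calc (4 / c₀) * (4 * k) * 2 ^ k ≤ L * L * L := by gcongr
          _ = L ^ 3 := by ring
      have g5 : (4 / c₀) * (4 * k) * 2 ^ k * (√(N : ℝ) * L ^ (D + 4 + e₀ + k)) ≤ N := by
        calc (4 / c₀) * (4 * k) * 2 ^ k * (√(N : ℝ) * L ^ (D + 4 + e₀ + k)) ≤ L ^ 3 * (√(N : ℝ) * L ^ (D + 4 + e₀ + k)) := by gcongr
          _ = √(N : ℝ) * L ^ (D + 4 + e₀ + k + 3) := by rw [pow_add L (D + 4 + e₀ + k) 3]; ring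
          _ ≤ √(N : ℝ) * L ^ (e₀ + 2 * k + D + 8) := by
              apply mul_le_mul_of_nonneg_left _ (Real.sqrt_nonneg _)
              exact pow_le_pow_right₀ hL1 (by omega)
          _ ≤ N := hsq2
      have g6 : 4 * (k : ℝ) * (√(N : ℝ) * L ^ (D + 4)) =
          c₀ / 2 ^ (k + 2) * (((4 / c₀) * (4 * k) * 2 ^ k * (√(N : ℝ) * L ^ (D + 4 + e₀ + k))) / L ^ (e₀ + k)) := by
        rw [show D + 4 + e₀ + k = (D + 4) + (e₀ + k) by ring, pow_add L (D + 4) (e₀ + k), show k + 2 = k + 1 + 1 by ring, pow_succ (2 : ℝ) (k + 1), pow_succ (2 : ℝ) k]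
        field_simp
        ring
      rw [g6]
      apply mul_le_mul_of_nonneg_left _ (by positivity)
      exact div_le_div_of_nonneg_right g5 (by positivity)
    have e10 : c₀ / 2 * (N / L ^ e₀) = (2 * L) ^ k * (2 * (c₀ / 2 ^ (k + 2) * (N / L ^ (e₀ + k)))) := by
      rw [mul_pow, pow_add L e₀ k, show k + 2 = k + 1 + 1 by ring, pow_succ (2 : ℝ) (k + 1), pow_succ (2 : ℝ) k]
      field_simp
    rw [e10] at e8
    have e11 := le_of_mul_le_mul_left e8 (by positivity)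
    linarith
  -- Markov
  have key := markov (Fintype.piFinset (fun i => Icc 1 (x i))) I (fun _ => (1 : ℝ)) (fun _ _ => zero_le_one)
    (fun q α => if ∀ j, α j ≠ 0 then |∑ n ∈ Icc 1 (A * N), (if n ∈ W N then (1 : ℝ) else 0) *
        (∏ j, LL (α j * (n : ℤ) + s j (q j)) - ∏ j, mdl z (α j * (n : ℤ) + s j (q j)))| else 0)
    (fun _ _ => by split_ifs <;> positivity) (fun q => q ∈ 𝒮) (c₀ / 2 * (N / L ^ e₀)) ((X / LX ^ U') * ∏ i, (x i : ℝ)) (by positivity) (by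
      intro q hq hqS
      by_contra hcon
      push Not at hcon
      apply hS q hqS
      intro α hα hαL hcond
      rw [← hL] at hαL ⊢
      refine hdet q hq α hα hαL hcond ?_
      have hmem : α ∈ I := by
        rw [hI, Fintype.mem_piFinset]
        intro j
        have h7 : (α j).natAbs ≤ R := by rw [hR]; exact Nat.le_floor (hαL j)
        simp only [mem_Icc]
        omega
      have h5 := hcon α hmem
      rw [if_pos hα] at h5
      exact h5)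
    (by
      intro α hαI
      rw [hI, Fintype.mem_piFinset] at hαI
      simp only [one_mul]
      by_cases hab : ∀ j, α j ≠ 0
      · simp only [if_pos hab]
        refine c1 z ((pow_le_pow_right₀ hLX1 (by omega)).trans hz1) hz2 α hab (A * N) ?_ (fun n => if n ∈ W N then (1 : ℝ) else 0) ?_
        · intro j
          have h4 := mem_Icc.1 (hαI j)
          have h5 : (α j).natAbs ≤ R := by omega
          exact hαX _ (le_trans (by exact_mod_cast h5) hRL)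
        · intro n _
          split_ifs
          · rw [abs_one]; exact hLX1
          · rw [abs_zero]; exact hLX0.le
      · simp only [if_neg hab, sum_const_zero]
        positivity)
  have hleft : (𝒮.card : ℝ) = ∑ q ∈ Fintype.piFinset (fun i => Icc 1 (x i)), (if q ∈ 𝒮 then (1 : ℝ) else 0) := by
    rw [sum_ite_mem, inter_eq_right.2 hSx, sum_const, nsmul_eq_mul, mul_one]
  rw [← hleft] at key
  refine key.trans ?_
  obtain ⟨P, hP⟩ : ∃ P : ℝ, P = ∏ i, (x i : ℝ) := ⟨_, rfl⟩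
  rw [← hP] at hprod0 ⊢
  have hL4 : 4 / c₀ ≤ L := by linarith
  calc (I.card : ℝ) * ((X / LX ^ U') * P) / (c₀ / 2 * (N / L ^ e₀))
      ≤ L ^ (k * (D + 1)) * ((N * L ^ (D + 3) / L ^ U') * P) / (c₀ / 2 * (N / L ^ e₀)) := by gcongr
    _ = (2 / c₀) * (P * L ^ (k * (D + 1) + (D + 3) + e₀) / L ^ U') := by
        rw [pow_add L (k * (D + 1) + (D + 3)) e₀, pow_add L (k * (D + 1)) (D + 3)]
        field_simp
    _ ≤ L * (P * L ^ (k * (D + 1) + (D + 3) + e₀) / L ^ U') := by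
        apply mul_le_mul_of_nonneg_right _ (by positivity)
        have : 2 / c₀ ≤ 4 / c₀ := div_le_div_of_nonneg_right (by norm_num) hc₀.le
        linarith
    _ ≤ P / L ^ U := by
        rw [← mul_div_assoc, div_le_div_iff₀ (by positivity) (by positivity)]
        calc L * (P * L ^ (k * (D + 1) + (D + 3) + e₀)) * L ^ U = P * L ^ (k * (D + 1) + (D + 3) + e₀ + U + 1) := by
              rw [pow_succ L (k * (D + 1) + (D + 3) + e₀ + U), pow_add L (k * (D + 1) + (D + 3) + e₀) U]; ring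
          _ ≤ P * L ^ U' := by
              apply mul_le_mul_of_nonneg_left _ hprod0
              exact pow_le_pow_right₀ hL1 (by omega)

end Pool.Agent.KS6_25.CP
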