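import Pool.Agent.KS6_25.CP.P3
import Pool.Agent.KS6_25.CP.P4

/-!
# Chen primes and primes at the members of thin families in short intervals
-/

set_option autoImplicit false

namespace Pool.Agent.KS6_25.CP

open Finset Filter
open Pool.Agent.H373R2.T7 (pz Vz Vz_pos mem_pz)
open Pool.Agent.TH935.TF
open Pool.Agent.TH935.GF (En)
open Pool.Agent.KS6_25.SH (transferP_short nbhd_short)

theorem Bs_sub (i j : ℕ) (S : Finset ℕ) (δ : ℝ) (X : ℕ) : Bs i j S δ X ⊆ Ioc 0 (2 * X) := by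
  classical
  intro n hn
  unfold Bs at hn
  rw [mem_filter, mem_Ioc] at hn
  rw [mem_Ioc]
  omega

/-- the model bound for the Chen primes -/
theorem model_chen (i j : ℕ) (hij : i ≠ j) (S : Finset ℕ) (k : ℕ) : ∃ (δ c : ℝ), 0 < δ ∧ 0 < c ∧
    ModelLow (Bs i j S δ) (fun α β : Fin k → ℤ => Ok i j S α β) (S.card + 2) c := by
  obtain ⟨δ, c, hδ, hc, h⟩ := model_low i j hij S k
  exact ⟨δ, c, hδ, hc, fun E => h E⟩

/-- sets with a lower bound for the model: neighbourhoods of the members of thin families in short intervals -/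
theorem low_nbhd {k : ℕ} (hk : 1 ≤ k) (W : ℕ → Finset ℕ) (A : ℕ) (hW : ∀ X, W X ⊆ Ioc 0 (A * X))
    (Cond : (Fin k → ℤ) → (Fin k → ℤ) → Prop) (e₀ : ℕ) (c₀ : ℝ) (hc₀ : 0 < c₀) (hlow : ModelLow W Cond e₀ c₀)
    (h B C D V U : ℕ) (hh : 1 ≤ h) {ρ : ℝ} (hρ : 0 < ρ) (hρ1 : ρ ≤ 1 / 4) :
    ∃ N₀ : ℕ, ∀ N : ℕ, N₀ ≤ N → ∀ (s₀ : Fin k → ℤ) (H : Fin k → ℕ),
      (∀ i, (N : ℝ) ^ (1 / 3 + ρ) ≤ H i) → (∀ i, H i ≤ N) → ∀ (ι : Fin k → Type) [∀ i, Fintype (ι i)] (v : ∀ i, ι i → ℤ),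
      (∀ i j, |v i j| ≤ B * N) → (∀ i j, s₀ i ≤ v i j ∧ v i j ≤ s₀ i + H i) →
      (∀ i, (En h (v i) : ℝ) * H i ≤ Real.log N ^ C * (Fintype.card (ι i) : ℝ) ^ (2 * h)) →
      ∀ 𝒮 : Finset (∀ i, ι i), (∀ q ∈ 𝒮, ¬ ∀ b : Fin k → ℤ, (∀ i, |(b i : ℝ) - v i (q i)| ≤ Real.log N ^ V) →
        CC W Cond e₀ (c₀ / 2 ^ (k + 2)) D N b) →
      (𝒮.card : ℝ) ≤ (∏ i, (Fintype.card (ι i) : ℝ)) / Real.log N ^ U :=
  nbhd_short h B C V U (ρ := ρ) (fun N β => CC W Cond e₀ (c₀ / 2 ^ (k + 2)) D N β) (fun U' =>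
    transferP_short h (B + 1) C U' ρ (fun N β => CC W Cond e₀ (c₀ / 2 ^ (k + 2)) D N β)
      (low_short hk W A hW Cond e₀ c₀ hc₀ hlow h (B + 1) C D U' hh hρ hρ1))

end Pool.Agent.KS6_25.CP
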