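import Pool.Agent.KS6_25.CP.P4

/-!
# Short variables: primes at `α i n + m i` for `n` in a short interval and almost all `m`
-/

set_option autoImplicit false

namespace Pool.Agent.KS6_25.CP

open Finset Filter
open Pool.Agent.H373R2.T7
open Pool.Agent.TH935.TF
open Pool.Agent.W93.PP (markov)
open Pool.Agent.W93.GB (pp pp_nonneg)
open Pool.Agent.Y614.GJ.Core (ev_log)
open Pool.Agent.KS6_25.SH (one_short)

/-- the dual form of a bilinear estimate -/
theorem dual_sum (x y : ℕ) (D : ℕ → ℕ → ℝ) (M K : ℝ) (hK : 0 ≤ K)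
    (h : ∀ G : ℕ → ℝ, (∀ v ∈ Icc 1 x, |G v| ≤ 1) → ∑ n ∈ Icc 1 y, |∑ v ∈ Icc 1 x, G v * D n v| ≤ M)
    (G : ℕ → ℝ) (hG : ∀ n ∈ Icc 1 y, |G n| ≤ K) :
    ∑ v ∈ Icc 1 x, |∑ n ∈ Icc 1 y, G n * D n v| ≤ K * M := by
  classical
  obtain ⟨ε, hε⟩ : ∃ ε : ℕ → ℝ, ε = fun v => if 0 ≤ ∑ n ∈ Icc 1 y, G n * D n v then 1 else -1 := ⟨_, rfl⟩
  have h1 : ∀ v, |∑ n ∈ Icc 1 y, G n * D n v| = ε v * ∑ n ∈ Icc 1 y, G n * D n v := by
    intro v
    rw [hε]
    simp only
    split_ifs with h2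
    · rw [abs_of_nonneg h2, one_mul]
    · rw [abs_of_neg (lt_of_not_ge h2)]
      ring
  have h2 : ∑ v ∈ Icc 1 x, |∑ n ∈ Icc 1 y, G n * D n v| = ∑ n ∈ Icc 1 y, G n * ∑ v ∈ Icc 1 x, ε v * D n v := by
    rw [sum_congr rfl fun v _ => h1 v]
    simp_rw [mul_sum]
    rw [sum_comm]
    apply sum_congr rfl
    intro n _
    apply sum_congr rfl
    intro v _
    ring
  rw [h2]
  calc ∑ n ∈ Icc 1 y, G n * ∑ v ∈ Icc 1 x, ε v * D n v ≤ ∑ n ∈ Icc 1 y, K * |∑ v ∈ Icc 1 x, ε v * D n v| := by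
        apply sum_le_sum
        intro n hn
        refine (le_abs_self _).trans ?_
        rw [abs_mul]
        exact mul_le_mul_of_nonneg_right (hG n hn) (abs_nonneg _)
    _ = K * ∑ n ∈ Icc 1 y, |∑ v ∈ Icc 1 x, ε v * D n v| := by rw [mul_sum]
    _ ≤ K * M := by
        apply mul_le_mul_of_nonneg_left _ hK
        apply h
        intro v _
        rw [hε]
        simp only
        split_ifs <;> simp

/-- the weight at the primes -/
noncomputable def lp (m : ℤ) : ℝ := LL m - pp m.natAbs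

theorem lp_eq (m : ℤ) : lp m = if m.natAbs.Prime then Real.log m.natAbs else 0 := by
  unfold lp LL pp
  rw [lamP_nat]
  ring

theorem lp_nonneg (m : ℤ) : 0 ≤ lp m := by
  rw [lp_eq]
  split_ifs with h
  · exact Real.log_natCast_nonneg _
  · exact le_rfl

theorem lp_le (m : ℤ) (X : ℕ) (hX : 1 ≤ X) (h : m.natAbs ≤ X) : lp m ≤ Real.log X := by
  refine le_trans ?_ (LL_le m X hX h)
  unfold lp
  linarith [pp_nonneg m.natAbs]

/-- the energy of order one of an injective family -/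
theorem energy_one (x : ℕ) (s : ℕ → ℤ) (hs : ∀ a ∈ Icc 1 x, ∀ b ∈ Icc 1 x, s a = s b → a = b) :
    Pool.Agent.H373R2.T7.energy 1 x s ≤ x := by
  classical
  unfold Pool.Agent.H373R2.T7.energy
  have h1 : (((Fintype.piFinset fun _ : Fin 1 => Icc 1 x) ×ˢ (Fintype.piFinset fun _ : Fin 1 => Icc 1 x)).filter
    (fun q => ∑ i, s (q.1 i) = ∑ i, s (q.2 i))).card ≤ (Icc 1 x).card := by
    apply card_le_card_of_injOn (fun q => q.1 0)
    · intro q hq
      rw [mem_coe, mem_filter, mem_product, Fintype.mem_piFinset, Fintype.mem_piFinset] at hq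
      exact hq.1.1 0
    · intro q hq q' hq' h2
      rw [mem_coe, mem_filter, mem_product, Fintype.mem_piFinset, Fintype.mem_piFinset] at hq hq'
      simp only [Fin.sum_univ_one] at hq hq'
      have h2' : q.1 0 = q'.1 0 := h2
      have e1 : q.1 0 = q.2 0 := hs _ (hq.1.1 0) _ (hq.1.2 0) hq.2
      have e2 : q'.1 0 = q'.2 0 := hs _ (hq'.1.1 0) _ (hq'.1.2 0) hq'.2
      apply Prod.ext
      · funext j
        rw [Subsingleton.elim j 0]
        exact h2'
      · funext j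
        rw [Subsingleton.elim j 0, ← e1, ← e2]
        exact h2'
  rw [Nat.card_Icc, Nat.add_sub_cancel] at h1
  exact h1

set_option maxHeartbeats 4000000 in
/-- one coordinate -/
theorem one_long (D U : ℕ) {ρ : ℝ} (hρ : 0 < ρ) (hρ1 : ρ ≤ 1 / 4) : ∃ B0 : ℕ, ∀ E : ℕ, ∃ N0 : ℕ,
    ∀ N : ℕ, N0 ≤ N → ∀ H : ℕ, (N : ℝ) ^ (1 / 3 + ρ) ≤ H →
    ∀ z : ℕ, Real.log N ^ B0 ≤ z → (z : ℝ) ≤ Real.log N ^ E →
    ∀ α : ℤ, α ≠ 0 → (α.natAbs : ℝ) ≤ Real.log N ^ D → α.natAbs * H ≤ N →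
    ∀ K : ℝ, 0 < K → ∀ G : ℕ → ℝ, (∀ n ∈ Icc 1 H, |G n| ≤ K) →
    ∑ v ∈ Icc 1 N, |∑ n ∈ Icc 1 H, G n * (lp (α * n + v) - mdl z (α * n + v))| ≤
      K * ((H / Real.log N ^ U) * N) := by
  classical
  obtain ⟨B0, h0⟩ := one_short 1 D (U + 2) le_rfl hρ hρ1
  refine ⟨B0, fun E => ?_⟩
  obtain ⟨n1, h1⟩ := h0 E
  obtain ⟨n2, h2⟩ := ev_L' 4
  obtain ⟨n3, h3⟩ := Filter.eventually_atTop.1 (ev_log (U + 4) (s := 1 / 2) (by norm_num) 1)
  refine ⟨n1 + n2 + n3 + 2, fun N hN H hH z hz1 hz2 α hα hαL hαH K hK G hG => ?_⟩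
  have c1 := h1 N (by omega)
  have hL := h2 N (by omega)
  obtain ⟨-, c3⟩ := h3 N (by omega)
  obtain ⟨L, hLd⟩ : ∃ L, L = Real.log (N : ℝ) := ⟨_, rfl⟩
  rw [← hLd] at c1 hL c3 hz1 hz2 hαL ⊢
  have hL1 : 1 ≤ L := by linarith
  have hL0 : 0 < L := by linarith
  have hN2 : (2 : ℝ) ≤ N := by exact_mod_cast (by omega : 2 ≤ N)
  have hN0 : (0 : ℝ) < N := by linarith
  have ha1 : 1 ≤ α.natAbs := Int.natAbs_pos.2 hα
  have hHr : (0 : ℝ) ≤ H := Nat.cast_nonneg _
  have haH : H ≤ α.natAbs * H := Nat.le_mul_of_pos_left _ ha1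
  have hinj : ∀ a ∈ Icc 1 H, ∀ b ∈ Icc 1 H, α * (a : ℤ) = α * (b : ℤ) → a = b := by
    intro a _ b _ h
    exact_mod_cast mul_left_cancel₀ hα h
  have hprim : ∀ F : ℕ → ℝ, (∀ v ∈ Icc 1 N, |F v| ≤ 1) →
      ∑ n ∈ Icc 1 H, |∑ v ∈ Icc 1 N, F v * (lp (α * n + v) - mdl z (α * n + v))| ≤ (H / L ^ U) * N := by
    intro F hF
    have key := c1 H (fun n => α * (n : ℤ)) (if 0 < α then 0 else α * (H : ℤ)) (α.natAbs * H) (by
        refine hH.trans ?_
        exact_mod_cast haH) (by omega) (by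
        intro m hm
        rw [mem_Icc] at hm
        rw [abs_mul, Nat.abs_cast, Int.abs_eq_natAbs]
        have : α.natAbs * m ≤ N := (Nat.mul_le_mul_left _ hm.2).trans hαH
        exact_mod_cast this) (by
        intro m hm
        rw [mem_Icc] at hm
        have hm0 : (0 : ℤ) ≤ m := by omega
        have hmH : (m : ℤ) ≤ H := by omega
        split_ifs with hpos
        · have e : ((α.natAbs * H : ℕ) : ℤ) = α * H := by
            rw [Nat.cast_mul, Int.natCast_natAbs, abs_of_pos hpos]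
          rw [e]
          constructor
          · positivity
          · nlinarith
        · have hneg : α < 0 := by omega
          have e : ((α.natAbs * H : ℕ) : ℤ) = -α * H := by
            rw [Nat.cast_mul, Int.natCast_natAbs, abs_of_neg hneg]
          rw [e]
          constructor
          · nlinarith
          · nlinarith) (by
        have e1 : (Pool.Agent.H373R2.T7.energy 1 H (fun n => α * (n : ℤ)) : ℝ) ≤ H := by
          exact_mod_cast energy_one H (fun n => α * (n : ℤ)) hinj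
        push_cast
        calc (Pool.Agent.H373R2.T7.energy 1 H (fun n => α * (n : ℤ)) : ℝ) * ((α.natAbs : ℝ) * H) ≤ H * (L ^ D * H) := by
              apply mul_le_mul e1 _ (by positivity) hHr
              exact mul_le_mul_of_nonneg_right hαL hHr
          _ = L ^ D * (H : ℝ) ^ (2 * 1) := by ring) z hz1 hz2 1 one_ne_zero N (by simp) 1 one_pos F hF
    have hbd : ∀ n ∈ Icc 1 H, ∀ v ∈ Ioc 0 N, ((1 : ℤ) * (v : ℤ) + α * n).natAbs ≤ 2 * N := by
      intro n hn v hv
      rw [mem_Icc] at hn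
      rw [mem_Ioc] at hv
      have f2 : α.natAbs * n ≤ N := (Nat.mul_le_mul_left _ hn.2).trans hαH
      have f3 : (α * (n : ℤ)).natAbs ≤ N := by rw [Int.natAbs_mul, Int.natAbs_natCast]; exact f2
      have := Int.natAbs_add_le ((1 : ℤ) * (v : ℤ)) (α * n)
      omega
    have hpp : ∀ n ∈ Icc 1 H, ∑ v ∈ Icc 1 N, pp (α * (n : ℤ) + v).natAbs ≤ N / (2 * L ^ U) := by
      intro n hn
      have e1 := pp_form 1 (α * n) one_ne_zero (2 * N) 0 N (by omega) (hbd n hn)
      have e2 : ∑ v ∈ Icc 1 N, pp (α * (n : ℤ) + v).natAbs = ∑ v ∈ Ioc 0 N, pp ((1 : ℤ) * (v : ℤ) + α * n).natAbs := by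
        apply sum_congr rfl
        intro v _
        congr 2
        ring
      rw [e2]
      refine e1.trans ?_
      have e3 : Real.log ((2 * N : ℕ) : ℝ) ≤ 2 * L := by
        push_cast
        have e1 : (2 : ℝ) * N ≤ N ^ 2 := by nlinarith
        have e2 := Real.log_le_log (by positivity) e1
        rw [Real.log_pow, ← hLd] at e2
        exact_mod_cast e2
      have e4 : √((2 * N : ℕ) : ℝ) ≤ 2 * √(N : ℝ) := by
        rw [Real.sqrt_le_left (by positivity), mul_pow, Real.sq_sqrt hN0.le]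
        push_cast
        linarith
      have e5 : √(N : ℝ) * L ^ (U + 4) ≤ N := by
        calc √(N : ℝ) * L ^ (U + 4) ≤ (N : ℝ) ^ (1 / 2 : ℝ) * (N : ℝ) ^ (1 / 2 : ℝ) := by
              rw [← Real.sqrt_eq_rpow]
              exact mul_le_mul_of_nonneg_left (by rw [Real.sqrt_eq_rpow]; exact c3) (Real.sqrt_nonneg _)
          _ = N := by rw [← Real.rpow_add hN0]; norm_num
      rw [le_div_iff₀ (by positivity)]
      calc 4 * √((2 * N : ℕ) : ℝ) * Real.log ((2 * N : ℕ) : ℝ) * (2 * L ^ U) ≤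
          4 * (2 * √(N : ℝ)) * (2 * L) * (2 * L ^ U) := by
            gcongr
        _ = √(N : ℝ) * (32 * L * L ^ U) := by ring
        _ ≤ √(N : ℝ) * (L ^ 4 * L ^ U) := by
            apply mul_le_mul_of_nonneg_left _ (Real.sqrt_nonneg _)
            apply mul_le_mul_of_nonneg_right _ (by positivity)
            have : (32 : ℝ) ≤ L ^ 3 := by nlinarith [pow_le_pow_left₀ (by norm_num) hL 3]
            calc 32 * L ≤ L ^ 3 * L := by nlinarith
              _ = L ^ 4 := by ring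
        _ = √(N : ℝ) * L ^ (U + 4) := by rw [pow_add L U 4]; ring
        _ ≤ N := e5
    have hsplit : ∀ n ∈ Icc 1 H, |∑ v ∈ Icc 1 N, F v * (lp (α * n + v) - mdl z (α * n + v))| ≤
        |∑ q ∈ Icc 1 N, F q * (LL (1 * (q : ℤ) + α * n) - mdl z (1 * (q : ℤ) + α * n))| + N / (2 * L ^ U) := by
      intro n hn
      have e1 : ∑ v ∈ Icc 1 N, F v * (lp (α * n + v) - mdl z (α * n + v)) =
          ∑ q ∈ Icc 1 N, F q * (LL (1 * (q : ℤ) + α * n) - mdl z (1 * (q : ℤ) + α * n)) -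
          ∑ v ∈ Icc 1 N, F v * pp (α * (n : ℤ) + v).natAbs := by
        rw [← sum_sub_distrib]
        apply sum_congr rfl
        intro v _
        have e : (1 : ℤ) * (v : ℤ) + α * n = α * n + v := by ring
        rw [e]
        unfold lp
        ring
      rw [e1]
      refine (abs_sub _ _).trans ?_
      apply add_le_add le_rfl
      refine (abs_sum_le_sum_abs _ _).trans (le_trans ?_ (hpp n hn))
      apply sum_le_sum
      intro v hv
      rw [abs_mul, abs_of_nonneg (pp_nonneg _)]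
      exact mul_le_of_le_one_left (pp_nonneg _) (hF v hv)
    refine (sum_le_sum hsplit).trans ?_
    rw [sum_add_distrib, sum_const, Nat.card_Icc, Nat.add_sub_cancel, nsmul_eq_mul]
    refine (add_le_add key le_rfl).trans ?_
    have e6 : 2 * (N : ℝ) / L ^ (U + 2) ≤ N / (2 * L ^ U) := by
      rw [div_le_div_iff₀ (by positivity) (by positivity), pow_add L U 2]
      have : (4 : ℝ) ≤ L ^ 2 := by nlinarith
      have h5 : (0 : ℝ) ≤ N * L ^ U := by positivity
      nlinarith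
    calc 1 * (2 * (N : ℝ) / L ^ (U + 2) * H) + H * (N / (2 * L ^ U)) ≤ 1 * (N / (2 * L ^ U) * H) + H * (N / (2 * L ^ U)) := by gcongr
      _ = (H / L ^ U) * N := by field_simp; ring
  exact dual_sum N H (fun n v => lp (α * n + v) - mdl z (α * n + v)) _ K hK.le hprim G hG

end Pool.Agent.KS6_25.CP
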