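import Pool.Agent.KS6_25.CP.P6

/-!
# Short variables: products
-/

set_option autoImplicit false

namespace Pool.Agent.KS6_25.CP

open Finset Filter
open Pool.Agent.H373R2.T7
open Pool.Agent.TH935.TF
open Pool.Agent.W93.PP (markov)
open Pool.Agent.W93.GB (pp pp_nonneg)
open Pool.Agent.Y614.GJ.Core (ev_log)

set_option maxHeartbeats 4000000 in
/-- products -/
theorem prod_long (k D U : ℕ) {ρ : ℝ} (hρ : 0 < ρ) (hρ1 : ρ ≤ 1 / 4) : ∃ B0 : ℕ, ∀ E : ℕ, ∃ N0 : ℕ,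
    ∀ N : ℕ, N0 ≤ N → ∀ H : ℕ, (N : ℝ) ^ (1 / 3 + ρ) ≤ H →
    ∀ z : ℕ, Real.log N ^ B0 ≤ z → (z : ℝ) ≤ Real.log N ^ E →
    ∀ α : Fin k → ℤ, (∀ i, α i ≠ 0) → (∀ i, ((α i).natAbs : ℝ) ≤ Real.log N ^ D) → (∀ i, (α i).natAbs * H ≤ N) →
    ∀ w : ℕ → ℝ, (∀ n ∈ Icc 1 H, |w n| ≤ Real.log N) →
    ∑ m ∈ Fintype.piFinset (fun _ : Fin k => Icc 1 N),
      |∑ n ∈ Icc 1 H, w n * (∏ i, lp (α i * n + m i) - ∏ i, mdl z (α i * n + m i))| ≤
      (H / Real.log N ^ U) * (N : ℝ) ^ k := by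
  classical
  obtain ⟨B0, h0⟩ := one_long D (U + k + 2) hρ hρ1
  refine ⟨B0 + 1, fun E => ?_⟩
  obtain ⟨n1, h1⟩ := h0 E
  obtain ⟨n2, h2⟩ := ev_L' (k * 2 ^ k * 2 + 2)
  obtain ⟨n3, h3⟩ := Vz_inv_small E
  refine ⟨n1 + n2 + n3 + 2, fun N hN H hH z hz1 hz2 α hα hαL hαH w hw => ?_⟩
  have hL := h2 N (by omega)
  obtain ⟨L, hLd⟩ : ∃ L, L = Real.log (N : ℝ) := ⟨_, rfl⟩
  have hq : (0 : ℝ) ≤ k * 2 ^ k * 2 := by positivity
  have c1 := h1 N (by omega)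
  have c3 := h3 N (by omega) z
  rw [← hLd] at hL c1 c3 hz1 hz2 hw hαL ⊢
  have hL1 : 1 ≤ L := by linarith
  have hL2 : 2 ≤ L := by linarith
  have hL0 : 0 < L := by linarith
  have hz1' : 1 ≤ z := by
    have : (1 : ℝ) ≤ z := (one_le_pow₀ hL1).trans hz1
    exact_mod_cast this
  have hV := c3 hz1' hz2
  have hN2 : (2 : ℝ) ≤ N := by exact_mod_cast (by omega : 2 ≤ N)
  have hN0 : (0 : ℝ) < N := by linarith
  have hval : ∀ i, ∀ n ∈ Icc 1 H, ∀ v ∈ Icc 1 N, (α i * (n : ℤ) + v).natAbs ≤ 2 * N := by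
    intro i n hn v hv
    rw [mem_Icc] at hn hv
    have e2 : (α i).natAbs * n ≤ N := (Nat.mul_le_mul_left _ hn.2).trans (hαH i)
    have e3 : (α i * (n : ℤ)).natAbs ≤ N := by rw [Int.natAbs_mul, Int.natAbs_natCast]; exact e2
    have := Int.natAbs_add_le (α i * (n : ℤ)) v
    omega
  have hlog2N : Real.log ((2 * N : ℕ) : ℝ) ≤ 2 * L := by
    push_cast
    have e1 : (2 : ℝ) * N ≤ N ^ 2 := by nlinarith
    have e2 := Real.log_le_log (by positivity) e1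
    rw [Real.log_pow, ← hLd] at e2
    exact_mod_cast e2
  have hP : ∀ i, ∀ n ∈ Icc 1 H, ∀ v ∈ Icc 1 N, |lp (α i * (n : ℤ) + v)| ≤ 2 * L := by
    intro i n hn v hv
    rw [abs_of_nonneg (lp_nonneg _)]
    exact (lp_le _ (2 * N) (by omega) (hval i n hn v hv)).trans hlog2N
  have hQ : ∀ i, ∀ n ∈ Icc 1 H, ∀ v ∈ Icc 1 N, |mdl z (α i * (n : ℤ) + v)| ≤ 2 * L := by
    intro i n hn v hv
    rw [abs_of_nonneg (mdl_nonneg _ _)]
    exact (mdl_le _ _).trans (by linarith)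
  have key := tele H (fun _ : Fin k => N) (fun _ => by omega) (fun i n v => lp (α i * n + v)) (fun i n v => mdl z (α i * n + v)) (2 * L)
    (H / L ^ (U + k + 2)) (by linarith) (by positivity) hP hQ
    (by
      intro i K hK G hG
      exact c1 H hH z ((pow_le_pow_right₀ hL1 (by omega)).trans hz1) hz2 (α i) (hα i) (hαL i) (hαH i) K hK G hG)
    univ L hL0 (fun n _ => w n) (fun n hn m _ => hw n hn) (fun _ _ _ _ _ => rfl)
  refine key.trans ?_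
  rw [card_univ, Fintype.card_fin, prod_const, card_univ, Fintype.card_fin]
  apply mul_le_mul_of_nonneg_right _ (by positivity)
  have e : (k : ℝ) * (L * (2 * L) ^ k * (H / L ^ (U + k + 2))) = (k * 2 ^ k / L) * (H / L ^ U) := by
    rw [mul_pow, show U + k + 2 = U + k + 1 + 1 by ring, pow_succ L (U + k + 1), pow_succ L (U + k), pow_add L U k]
    field_simp
  rw [e]
  have h5 : (k * 2 ^ k / L : ℝ) ≤ 1 := by
    rw [div_le_one hL0]
    linarith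
  calc (k * 2 ^ k / L : ℝ) * (H / L ^ U) ≤ 1 * (H / L ^ U) := mul_le_mul_of_nonneg_right h5 (by positivity)
    _ = _ := one_mul _

/-- the property of the vector `m` at the scales `Y ≤ N` -/
def CL (W : ℕ → Finset ℕ) {k : ℕ} (Cond : (Fin k → ℤ) → (Fin k → ℤ) → Prop) (e₀ : ℕ) (c : ℝ) (D N Y : ℕ) (m : Fin k → ℕ) : Prop :=
  ∀ α : Fin k → ℤ, (∀ l, α l ≠ 0) → (∀ l, ((α l).natAbs : ℝ) ≤ Real.log N ^ D) → Cond α (fun l => (m l : ℤ)) →
    c * (Y / Real.log N ^ (e₀ + k)) ≤ (cntW (W Y) α (fun l => (m l : ℤ)) : ℝ)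

set_option maxHeartbeats 4000000 in
/-- the transfer for short variables -/
theorem low_long {k : ℕ} (W : ℕ → Finset ℕ) (A : ℕ) (hA : 1 ≤ A) (hW : ∀ X, W X ⊆ Ioc 0 (A * X))
    (Cond : (Fin k → ℤ) → (Fin k → ℤ) → Prop) (e₀ : ℕ) (c₀ : ℝ) (hc₀ : 0 < c₀) (hlow : ModelLow W Cond e₀ c₀)
    (D U : ℕ) {ρ : ℝ} (hρ : 0 < ρ) (hρ1 : ρ ≤ 1 / 4) : ∃ N0 : ℕ, ∀ N : ℕ, N0 ≤ N →
    ∀ Y : ℕ, (N : ℝ) ^ (1 / 3 + ρ) ≤ Y → (Y : ℝ) * A * Real.log N ^ D ≤ N →
    ∀ 𝒮 : Finset (Fin k → ℕ), 𝒮 ⊆ Fintype.piFinset (fun _ => Icc 1 N) →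
    (∀ m ∈ 𝒮, ¬ CL W Cond e₀ (c₀ / 2 ^ (k + 1)) D N Y m) → (𝒮.card : ℝ) ≤ (N : ℝ) ^ k / Real.log N ^ U := by
  classical
  obtain ⟨U', hU'⟩ : ∃ U', U' = U + e₀ + 2 + k * (D + 1) := ⟨_, rfl⟩
  obtain ⟨B0, hB0⟩ := prod_long k D U' hρ hρ1
  obtain ⟨n0, h0⟩ := hB0 (B0 + 2)
  obtain ⟨n1, h1⟩ := hlow (2 * (B0 + 2))
  obtain ⟨n2, h2⟩ := ev_L' (3 * 3 ^ (B0 + 2) + 10 + (A : ℝ) + 2 / c₀)
  refine ⟨(n1 + 2) ^ 3 + n0 + n2 + 3, fun N hN Y hY hYA 𝒮 hSx hS => ?_⟩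
  have c1 := h0 N (by omega)
  have c2 := h2 N (by omega)
  obtain ⟨L, hL⟩ : ∃ L, L = Real.log (N : ℝ) := ⟨_, rfl⟩
  have h3B : (0 : ℝ) ≤ 3 ^ (B0 + 2) := by positivity
  have hA0 : (1 : ℝ) ≤ A := by exact_mod_cast hA
  have h2c : 0 ≤ 2 / c₀ := by positivity
  rw [← hL] at c1 c2 hYA ⊢
  have hL10 : 10 ≤ L := by linarith
  have hL1 : 1 ≤ L := by linarith
  have hL0 : 0 < L := by linarith
  have hNr : (3 : ℝ) ≤ N := by exact_mod_cast (by omega : 3 ≤ N)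
  have hN0 : (0 : ℝ) < N := by linarith
  -- the scale `Y`
  have hY3 : (N : ℝ) ^ (1 / 3 : ℝ) ≤ Y := by
    refine le_trans ?_ hY
    exact Real.rpow_le_rpow_of_exponent_le (by linarith) (by linarith)
  have hYn : n1 + 2 ≤ Y := by
    have e1 : (((n1 + 2) ^ 3 : ℕ) : ℝ) ≤ N := by exact_mod_cast (by omega : (n1 + 2) ^ 3 ≤ N)
    have e2 : ((n1 + 2 : ℕ) : ℝ) ≤ (N : ℝ) ^ (1 / 3 : ℝ) := by
      calc ((n1 + 2 : ℕ) : ℝ) = ((((n1 + 2) ^ 3 : ℕ) : ℝ)) ^ (1 / 3 : ℝ) := by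
            rw [Nat.cast_pow, ← Real.rpow_natCast, ← Real.rpow_mul (by positivity)]
            norm_num
        _ ≤ (N : ℝ) ^ (1 / 3 : ℝ) := Real.rpow_le_rpow (by positivity) e1 (by norm_num)
    exact_mod_cast e2.trans hY3
  have hY0 : (0 : ℝ) < Y := by exact_mod_cast (by omega : 0 < Y)
  obtain ⟨LY, hLY⟩ : ∃ LY, LY = Real.log (Y : ℝ) := ⟨_, rfl⟩
  have hLD1 : 1 ≤ L ^ D := one_le_pow₀ hL1
  have hYN : (Y : ℝ) ≤ N := by
    refine le_trans ?_ hYA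
    calc (Y : ℝ) = Y * 1 * 1 := by ring
      _ ≤ Y * A * L ^ D := by gcongr
  have hLYL : LY ≤ L := by rw [hLY, hL]; exact Real.log_le_log hY0 hYN
  have hLLY : L ≤ 3 * LY := by
    have e1 := Real.log_le_log (by positivity) hY3
    rw [Real.log_rpow hN0, ← hL, ← hLY] at e1
    linarith
  have hLY0 : 0 < LY := by linarith
  have hLY1 : 1 ≤ LY := by linarith
  have b1 := h1 Y (by omega)
  rw [← hLY] at b1
  -- the sieve level
  obtain ⟨z, hz⟩ : ∃ z, z = ⌈L ^ (B0 + 1)⌉₊ := ⟨_, rfl⟩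
  have hz1 : L ^ (B0 + 1) ≤ z := by rw [hz]; exact Nat.le_ceil _
  have hz2 : (z : ℝ) ≤ L ^ (B0 + 2) := by
    rw [hz]
    have h5 : (⌈L ^ (B0 + 1)⌉₊ : ℝ) < L ^ (B0 + 1) + 1 := Nat.ceil_lt_add_one (by positivity)
    have h6 : 1 ≤ L ^ (B0 + 1) := one_le_pow₀ hL1
    rw [show B0 + 2 = (B0 + 1) + 1 by ring, pow_succ L (B0 + 1)]
    nlinarith
  have hzL1 : LY ≤ z := (hLYL.trans (le_self_pow₀ hL1 (by omega))).trans hz1
  have hzL2 : (z : ℝ) ≤ LY ^ (2 * (B0 + 2)) := by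
    calc (z : ℝ) ≤ L ^ (B0 + 2) := hz2
      _ ≤ (3 * LY) ^ (B0 + 2) := pow_le_pow_left₀ hL0.le hLLY _
      _ = 3 ^ (B0 + 2) * LY ^ (B0 + 2) := mul_pow _ _ _
      _ ≤ LY ^ (B0 + 2) * LY ^ (B0 + 2) := by
          apply mul_le_mul_of_nonneg_right _ (by positivity)
          have : LY ≤ LY ^ (B0 + 2) := le_self_pow₀ hLY1 (by omega)
          linarith
      _ = LY ^ (2 * (B0 + 2)) := by rw [← pow_add]; congr 1; ring
  obtain ⟨R, hR⟩ : ∃ R : ℕ, R = ⌊L ^ D⌋₊ := ⟨_, rfl⟩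
  have hRL : (R : ℝ) ≤ L ^ D := by rw [hR]; exact Nat.floor_le (by positivity)
  obtain ⟨I, hI⟩ : ∃ I : Finset (Fin k → ℤ), I = Fintype.piFinset (fun _ => Icc (-(R : ℤ)) (R : ℤ)) := ⟨_, rfl⟩
  have hIcard : (I.card : ℝ) ≤ L ^ (k * (D + 1)) := by
    rw [hI, Fintype.card_piFinset, prod_const, card_univ, Fintype.card_fin, Int.card_Icc]
    have e1 : ((R : ℤ) + 1 - -(R : ℤ)).toNat = 2 * R + 1 := by omega
    rw [e1]
    push_cast
    have f3 : 2 * (R : ℝ) + 1 ≤ L ^ (D + 1) := by rw [pow_succ]; nlinarith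
    calc (2 * (R : ℝ) + 1) ^ k ≤ (L ^ (D + 1)) ^ k := by gcongr
      _ = L ^ (k * (D + 1)) := by rw [← pow_mul]; congr 1; ring
  -- sizes of the forms
  have hαX : ∀ α : ℤ, (α.natAbs : ℝ) ≤ L ^ D → α.natAbs * (A * Y) ≤ N := by
    intro α hα
    have h8 : (α.natAbs : ℝ) * (A * Y) ≤ N := by
      calc (α.natAbs : ℝ) * (A * Y) ≤ L ^ D * (A * Y) := mul_le_mul_of_nonneg_right hα (by positivity)
        _ = Y * A * L ^ D := by ring
        _ ≤ N := hYA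
    exact_mod_cast h8
  have hHY : (N : ℝ) ^ (1 / 3 + ρ) ≤ ((A * Y : ℕ) : ℝ) := by
    refine hY.trans ?_
    push_cast
    exact le_mul_of_one_le_left hY0.le hA0
  -- a small error implies the property
  have hdet : ∀ q ∈ Fintype.piFinset (fun _ : Fin k => Icc 1 N), ∀ α : Fin k → ℤ, (∀ l, α l ≠ 0) → (∀ l, ((α l).natAbs : ℝ) ≤ L ^ D) →
      Cond α (fun l => (q l : ℤ)) →
      |∑ n ∈ Icc 1 (A * Y), (if n ∈ W Y then (1 : ℝ) else 0) * (∏ j, lp (α j * (n : ℤ) + q j) - ∏ j, mdl z (α j * (n : ℤ) + q j))| <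
        c₀ / 2 * (Y / LY ^ e₀) →
      c₀ / 2 ^ (k + 1) * (Y / L ^ (e₀ + k)) ≤ (cntW (W Y) α (fun l => (q l : ℤ)) : ℝ) := by
    intro q hq α hα hαL hcond herr
    have hm := b1 z hzL1 hzL2 α (fun l => (q l : ℤ)) hcond
    have e1 : ∑ n ∈ Icc 1 (A * Y), (if n ∈ W Y then (1 : ℝ) else 0) * (∏ j, lp (α j * (n : ℤ) + q j) - ∏ j, mdl z (α j * (n : ℤ) + q j)) =
        ∑ n ∈ W Y, ∏ j, lp (α j * (n : ℤ) + q j) - ∑ n ∈ W Y, ∏ j, mdl z (α j * (n : ℤ) + q j) := by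
      rw [← sum_sub_distrib]
      have hsub : W Y ⊆ Icc 1 (A * Y) := hW Y
      rw [← inter_eq_right.2 hsub, ← sum_ite_mem]
      apply sum_congr rfl
      intro n _
      rw [inter_eq_right.2 hsub]
      split_ifs <;> simp
    rw [e1] at herr
    have e2 := (abs_lt.1 herr).1
    have hlow2 : c₀ / 2 * (Y / LY ^ e₀) ≤ ∑ n ∈ W Y, ∏ j, lp (α j * (n : ℤ) + q j) := by
      have e4 : c₀ * (Y / LY ^ e₀) = c₀ / 2 * (Y / LY ^ e₀) + c₀ / 2 * (Y / LY ^ e₀) := by ring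
      linarith
    have hlog2N : Real.log ((2 * N : ℕ) : ℝ) ≤ 2 * L := by
      push_cast
      have e1 : (2 : ℝ) * N ≤ N ^ 2 := by nlinarith
      have e2 := Real.log_le_log (by positivity) e1
      rw [Real.log_pow, ← hL] at e2
      exact_mod_cast e2
    have hup : ∑ n ∈ W Y, ∏ j, lp (α j * (n : ℤ) + q j) ≤ (cntW (W Y) α (fun l => (q l : ℤ)) : ℝ) * (2 * L) ^ k := by
      have e5 : ∀ n ∈ W Y, ∏ j, lp (α j * (n : ℤ) + q j) ≤
          if ∀ l, (α l * (n : ℤ) + q l).natAbs.Prime then (2 * L) ^ k else 0 := by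
        intro n hn
        have hn' := mem_Ioc.1 (hW Y hn)
        split_ifs with hp
        · calc ∏ j, lp (α j * (n : ℤ) + q j) ≤ ∏ _j : Fin k, (2 * L) := by
                apply prod_le_prod (fun i _ => lp_nonneg _)
                intro i _
                refine (lp_le _ (2 * N) (by omega) ?_).trans hlog2N
                have f1 := mem_Icc.1 (Fintype.mem_piFinset.1 hq i)
                have f2 : (α i).natAbs * n ≤ N := (Nat.mul_le_mul_left _ hn'.2).trans (hαX _ (hαL i))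
                have f3 : (α i * (n : ℤ)).natAbs ≤ N := by rw [Int.natAbs_mul, Int.natAbs_natCast]; exact f2
                have := Int.natAbs_add_le (α i * (n : ℤ)) (q i)
                omega
            _ = (2 * L) ^ k := by rw [prod_const, card_univ, Fintype.card_fin]
        · push Not at hp
          obtain ⟨i, hi⟩ := hp
          rw [prod_eq_zero (mem_univ i)]
          rw [lp_eq, if_neg hi]
      refine (sum_le_sum e5).trans (le_of_eq ?_)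
      rw [← sum_filter, sum_const, nsmul_eq_mul]
      unfold cntW
      congr!
    have e6 : c₀ / 2 * (Y / L ^ e₀) ≤ c₀ / 2 * (Y / LY ^ e₀) := by
      apply mul_le_mul_of_nonneg_left _ (by positivity)
      apply div_le_div_of_nonneg_left hY0.le (by positivity)
      exact pow_le_pow_left₀ hLY0.le hLYL _
    have e7 : c₀ / 2 ^ (k + 1) * (Y / L ^ (e₀ + k)) * (2 * L) ^ k = c₀ / 2 * (Y / L ^ e₀) := by
      rw [mul_pow, pow_add L e₀ k, pow_succ (2 : ℝ) k]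
      field_simp
    have e8 : c₀ / 2 ^ (k + 1) * (Y / L ^ (e₀ + k)) * (2 * L) ^ k ≤ (cntW (W Y) α (fun l => (q l : ℤ)) : ℝ) * (2 * L) ^ k := by
      rw [e7]
      exact e6.trans (hlow2.trans hup)
    exact le_of_mul_le_mul_right e8 (by positivity)
  -- Markov
  have key := markov (Fintype.piFinset (fun _ : Fin k => Icc 1 N)) I (fun _ => (1 : ℝ)) (fun _ _ => zero_le_one)
    (fun q α => if (∀ j, α j ≠ 0) ∧ ∀ j, ((α j).natAbs : ℝ) ≤ L ^ D then |∑ n ∈ Icc 1 (A * Y), (if n ∈ W Y then (1 : ℝ) else 0) *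
        (∏ j, lp (α j * (n : ℤ) + q j) - ∏ j, mdl z (α j * (n : ℤ) + q j))| else 0)
    (fun _ _ => by split_ifs <;> positivity) (fun q => q ∈ 𝒮) (c₀ / 2 * (Y / LY ^ e₀)) (((A * Y : ℕ) / L ^ U') * (N : ℝ) ^ k) (by positivity) (by
      intro q hq hqS
      by_contra hcon
      push Not at hcon
      apply hS q hqS
      intro α hα hαL hcond
      rw [← hL] at hαL ⊢
      refine hdet q hq α hα hαL hcond ?_
      have hmem : α ∈ I := by
        rw [hI, Fintype.mem_piFinset]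
        intro j
        have h7 : (α j).natAbs ≤ R := by rw [hR]; exact Nat.le_floor (hαL j)
        simp only [mem_Icc]
        omega
      have h5 := hcon α hmem
      rw [if_pos ⟨hα, hαL⟩] at h5
      exact h5)
    (by
      intro α hαI
      simp only [one_mul]
      by_cases hab : (∀ j, α j ≠ 0) ∧ ∀ j, ((α j).natAbs : ℝ) ≤ L ^ D
      · simp only [if_pos hab]
        refine c1 (A * Y) hHY z ((pow_le_pow_right₀ hL1 (by omega)).trans hz1) hz2 α hab.1 hab.2 (fun j => hαX _ (hab.2 j))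
          (fun n => if n ∈ W Y then (1 : ℝ) else 0) ?_
        intro n _
        split_ifs
        · rw [abs_one]; exact hL1
        · rw [abs_zero]; exact hL0.le
      · simp only [if_neg hab, sum_const_zero]
        positivity)
  have hleft : (𝒮.card : ℝ) = ∑ q ∈ Fintype.piFinset (fun _ : Fin k => Icc 1 N), (if q ∈ 𝒮 then (1 : ℝ) else 0) := by
    rw [sum_ite_mem, inter_eq_right.2 hSx, sum_const, nsmul_eq_mul, mul_one]
  rw [← hleft] at key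
  refine key.trans ?_
  have hc2 : 2 / c₀ ≤ L := by linarith
  have hAL : (A : ℝ) ≤ L := by linarith
  push_cast
  calc (I.card : ℝ) * (((A : ℝ) * Y / L ^ U') * (N : ℝ) ^ k) / (c₀ / 2 * (Y / LY ^ e₀))
      ≤ L ^ (k * (D + 1)) * ((L * Y / L ^ U') * (N : ℝ) ^ k) / (c₀ / 2 * (Y / L ^ e₀)) := by
        apply div_le_div₀ (by positivity) _ (by positivity)
        · apply mul_le_mul_of_nonneg_left _ (by positivity)
          apply div_le_div_of_nonneg_left hY0.le (by positivity)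
          exact pow_le_pow_left₀ hLY0.le hLYL _
        · gcongr
    _ = (2 / c₀) * ((N : ℝ) ^ k * L ^ (k * (D + 1) + 1 + e₀) / L ^ U') := by
        rw [pow_add L (k * (D + 1) + 1) e₀, pow_add L (k * (D + 1)) 1]
        field_simp
    _ ≤ L * ((N : ℝ) ^ k * L ^ (k * (D + 1) + 1 + e₀) / L ^ U') := by
        apply mul_le_mul_of_nonneg_right hc2 (by positivity)
    _ ≤ (N : ℝ) ^ k / L ^ U := by
        rw [← mul_div_assoc, div_le_div_iff₀ (by positivity) (by positivity)]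
        calc L * ((N : ℝ) ^ k * L ^ (k * (D + 1) + 1 + e₀)) * L ^ U = (N : ℝ) ^ k * L ^ (k * (D + 1) + 1 + e₀ + U + 1) := by
              rw [pow_succ L (k * (D + 1) + 1 + e₀ + U), pow_add L (k * (D + 1) + 1 + e₀) U]; ring
          _ ≤ (N : ℝ) ^ k * L ^ U' := by
              apply mul_le_mul_of_nonneg_left _ (by positivity)
              exact pow_le_pow_right₀ hL1 (by omega)

end Pool.Agent.KS6_25.CP
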